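import Mathlib

set_option autoImplicit false

/-!
Points of arbitrary degree on the projective line: statements of the lemmas on number fields.
-/

namespace Pool.Agent.Q256.T6

open NumberField Polynomial

/-- the number of ideals of a given norm. -/
def S_Ideals : Prop := ∀ (r : ℕ) (ε : ℝ), 0 < ε → ∃ C : ℝ, ∀ (K : Type) [Field K] [NumberField K],
  Module.finrank ℚ K = r → ∀ n : ℕ, 1 ≤ n →
    ({I : Ideal (𝓞 K) | Ideal.absNorm I = n}.ncard : ℝ) ≤ C * (n : ℝ) ^ ε

/-- the number of generators with bounded conjugates of an ideal. -/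
def S_Gens : Prop := ∀ r : ℕ, ∃ C : ℝ, ∀ (K : Type) [Field K] [NumberField K],
  Module.finrank ℚ K = r → ∀ (I : Ideal (𝓞 K)) (B : ℝ), I ≠ ⊥ → 1 ≤ B →
    ({z : 𝓞 K | Ideal.span {z} = I ∧ ∀ σ : K →+* ℂ, ‖σ z‖ ≤ B}.ncard : ℝ) ≤
      C * (1 + Real.log B) ^ r

/-- Gauss's lemma: the norm of the ideal `(a, b)`, where `x = a / b`, and the leading coefficient
of the minimal polynomial of `x` over the integers. -/
def S_Gauss : Prop := ∀ (K : Type) [Field K] [NumberField K] (x : K) (g : ℤ[X]) (a b : 𝓞 K),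
  IntermediateField.adjoin ℚ {x} = ⊤ → Irreducible g → aeval x g = 0 → b ≠ 0 →
    (a : K) = b * x →
      Ideal.absNorm (Ideal.span {a, b}) * g.leadingCoeff.natAbs = (Algebra.norm ℤ b).natAbs

/-- the discriminant of a number field in which an ideal of a subfield becomes an `m`-th power. -/
def S_Disc : Prop := ∀ (K L : Type) [Field K] [NumberField K] [Field L] [NumberField L]
  [Algebra K L] (m : ℕ) (J : Ideal (𝓞 K)) (W : Ideal (𝓞 L)), 1 ≤ m → J ≠ ⊥ →
    J.map (algebraMap (𝓞 K) (𝓞 L)) = W ^ m →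
      (Module.finrank K L : ℝ) * ∑ p ∈ (Ideal.absNorm J).primeFactors,
        (1 - (padicValNat p (Ideal.absNorm J) : ℝ) / m) * Real.log p ≤
          Real.log |(NumberField.discr L : ℝ)|

end Pool.Agent.Q256.T6
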