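import Mathlib
import Pool.Agent.Q256.T3.Def

set_option autoImplicit false

/-!
Points of arbitrary degree on the projective line: the Mahler measure and the fibres.
-/

namespace Pool.Agent.Q256.T6

open Finset
open Pool.Agent.Q256.T3 (P P_coeff P_deg P_sub P_inj)

/-- the Mahler measure of an integral polynomial. -/
noncomputable def mah (g : Polynomial ℤ) : ℝ := (g.map (Int.castRingHom ℂ)).mahlerMeasure

theorem one_le_mah (g : Polynomial ℤ) (hg : g ≠ 0) : 1 ≤ mah g :=
  Polynomial.one_le_mahlerMeasure_of_ne_zero hg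

theorem mah_nonneg (g : Polynomial ℤ) : 0 ≤ mah g := Polynomial.mahlerMeasure_nonneg _

theorem mah_mul (g q : Polynomial ℤ) : mah (g * q) = mah g * mah q := by
  unfold mah
  rw [Polynomial.map_mul, Polynomial.mahlerMeasure_mul]

theorem coeff_le_mah (g : Polynomial ℤ) (r : ℕ) (hr : g.natDegree ≤ r) (i : ℕ) :
    |(g.coeff i : ℝ)| ≤ 2 ^ r * mah g := by
  have h1 : |(g.coeff i : ℝ)| = ‖(g.map (Int.castRingHom ℂ)).coeff i‖ := by
    rw [Polynomial.coeff_map, Int.coe_castRingHom, Complex.norm_intCast]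
  rw [h1]
  refine (Polynomial.norm_coeff_le_choose_mul_mahlerMeasure i _).trans ?_
  refine mul_le_mul_of_nonneg_right ?_ (mah_nonneg g)
  rw [Polynomial.natDegree_map_eq_of_injective Int.cast_injective]
  have h2 : (g.natDegree.choose i : ℝ) ≤ 2 ^ g.natDegree := by
    have := Nat.choose_le_two_pow g.natDegree i
    exact_mod_cast this
  exact h2.trans (pow_le_pow_right₀ (by norm_num) hr)

theorem mah_P_le {d : ℕ} (c : Fin (d + 1) → ℤ) (X : ℝ) (hX : 0 ≤ X) (hc : ∀ i, |(c i : ℝ)| ≤ X) :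
    mah (P c) ≤ (d + 1) * X := by
  unfold mah
  refine (Polynomial.mahlerMeasure_le_sum_norm_coeff _).trans ?_
  rw [Polynomial.sum_def]
  have h1 : ((P c).map (Int.castRingHom ℂ)).support ⊆ range (d + 1) := by
    intro i hi
    rw [mem_range]
    by_contra hcon
    rw [Polynomial.mem_support_iff, Polynomial.coeff_map, P_coeff, dif_neg hcon] at hi
    simp at hi
  have h2 : ∀ i ∈ ((P c).map (Int.castRingHom ℂ)).support,
      ‖((P c).map (Int.castRingHom ℂ)).coeff i‖ ≤ X := by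
    intro i _
    rw [Polynomial.coeff_map, Int.coe_castRingHom, Complex.norm_intCast, P_coeff]
    split_ifs with h
    · exact hc _
    · simpa using hX
  refine (sum_le_card_nsmul _ _ X h2).trans ?_
  rw [nsmul_eq_mul]
  refine mul_le_mul_of_nonneg_right ?_ hX
  have := card_le_card h1
  rw [card_range] at this
  exact_mod_cast this

/-- **The fibres.** -/
theorem fibre {d : ℕ} (T : ℕ) (hT : 1 ≤ T) (r : ℕ) (hr : 1 ≤ r) (g : Polynomial ℤ)
    (hgd : g.natDegree = r) (A : Finset (Fin (d + 1) → ℤ)) (hA : ∀ c ∈ A, ∀ i, |c i| ≤ T)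
    (hdvd : ∀ c ∈ A, ∀ c' ∈ A, g ∣ P c - P c') :
    (#A : ℝ) ≤ (2 ^ (d + 3) * (d + 1) * max 1 ((T : ℝ) / mah g)) ^ (d + 1 - r) := by
  classical
  have hg : g ≠ 0 := by
    rintro rfl
    simp at hgd
    omega
  have hM1 := one_le_mah g hg
  have hM0 : 0 < mah g := by linarith
  have hTr : (1 : ℝ) ≤ T := by exact_mod_cast hT
  rcases A.eq_empty_or_nonempty with h0 | ⟨c0, hc0⟩
  · subst h0
    simp only [card_empty, Nat.cast_zero]
    positivity
  -- the quotients
  have key : ∀ c : Fin (d + 1) → ℤ, ∃ q : Polynomial ℤ, c ∈ A → P c - P c0 = g * q := by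
    intro c
    by_cases hc : c ∈ A
    · obtain ⟨q, hq⟩ := hdvd c hc c0 hc0
      exact ⟨q, fun _ => hq⟩
    · exact ⟨0, fun h => absurd h hc⟩
  choose q hq using key
  have hqdeg : ∀ c ∈ A, (q c).natDegree ≤ d - r ∧ (d < r → q c = 0) := by
    intro c hc
    by_cases hq0 : q c = 0
    · rw [hq0]; simp
    have h1 : (P c - P c0).natDegree ≤ d := by rw [P_sub]; exact P_deg _
    rw [hq c hc, Polynomial.natDegree_mul hg hq0, hgd] at h1
    exact ⟨by omega, fun h2 => by omega⟩
  -- the case of small degree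
  rcases Nat.lt_or_ge d r with hd2 | hd2
  · have h1 : #A ≤ 1 := by
      rw [card_le_one]
      have h2 : ∀ c ∈ A, c = c0 := by
        intro c hc
        have h3 := hq c hc
        rw [(hqdeg c hc).2 hd2, mul_zero, sub_eq_zero] at h3
        exact P_inj h3
      intro c hc c' hc'
      rw [h2 c hc, h2 c' hc']
    have h2 : d + 1 - r = 0 := by omega
    rw [h2, pow_zero]
    exact_mod_cast h1
  -- the coefficients of the quotients
  obtain ⟨K, hK⟩ : ∃ K : ℝ, K = 2 ^ (d + 1) * (d + 1) * T / mah g := ⟨_, rfl⟩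
  have hK0 : 0 ≤ K := by rw [hK]; positivity
  have hcoef : ∀ c ∈ A, ∀ j, |((q c).coeff j : ℝ)| ≤ K := by
    intro c hc j
    have h1 := coeff_le_mah (q c) (d - r) (hqdeg c hc).1 j
    have h2 : mah g * mah (q c) ≤ (d + 1) * (2 * T) := by
      rw [← mah_mul, ← hq c hc, P_sub]
      refine mah_P_le _ _ (by positivity) (fun i => ?_)
      have h3 : |((c i : ℤ) : ℝ)| ≤ T := by exact_mod_cast hA c hc i
      have h4 : |((c0 i : ℤ) : ℝ)| ≤ T := by exact_mod_cast hA c0 hc0 i
      rw [Pi.sub_apply]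
      push_cast
      exact (abs_sub _ _).trans (by linarith)
    have h5 : mah (q c) ≤ (d + 1) * (2 * T) / mah g := by
      rw [le_div_iff₀ hM0, mul_comm]; exact h2
    have h6 : (2 : ℝ) ^ (d - r) ≤ 2 ^ d := pow_le_pow_right₀ (by norm_num) (by omega)
    calc |((q c).coeff j : ℝ)| ≤ 2 ^ (d - r) * mah (q c) := h1
      _ ≤ 2 ^ d * ((d + 1) * (2 * T) / mah g) :=
          mul_le_mul h6 h5 (mah_nonneg _) (by positivity)
      _ = K := by rw [hK]; ring
  obtain ⟨k, hk⟩ : ∃ k : ℕ, k = ⌊K⌋₊ := ⟨_, rfl⟩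
  have hkK : (k : ℝ) ≤ K := by rw [hk]; exact Nat.floor_le hK0
  have hcoef2 : ∀ c ∈ A, ∀ j, |(q c).coeff j| ≤ k := by
    intro c hc j
    have h1 := hcoef c hc j
    have h2 : ((((q c).coeff j).natAbs : ℕ) : ℝ) ≤ K := by
      rw [Nat.cast_natAbs, Int.cast_abs]; exact h1
    have h3 := Nat.le_floor h2
    rw [← hk] at h3
    have := Int.abs_eq_natAbs ((q c).coeff j)
    omega
  have hinj : #A ≤ #(Fintype.piFinset (fun _ : Fin (d + 1 - r) => Icc (-(k : ℤ)) k)) := by
    refine card_le_card_of_injOn (fun c j => (q c).coeff j) ?_ ?_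
    · intro c hc
      rw [mem_coe, Fintype.mem_piFinset]
      intro j
      rw [mem_Icc, ← abs_le]
      exact hcoef2 c hc _
    · intro c hc c' hc' h
      have h1 : q c = q c' := by
        ext j
        by_cases hj : j < d + 1 - r
        · exact congrFun h ⟨j, hj⟩
        · rw [Polynomial.coeff_eq_zero_of_natDegree_lt (by
            have := (hqdeg c hc).1; omega), Polynomial.coeff_eq_zero_of_natDegree_lt (by
            have := (hqdeg c' hc').1; omega)]
      have h2 : P c - P c0 = P c' - P c0 := by rw [hq c hc, hq c' hc', h1]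
      exact P_inj (sub_left_injective h2)
  rw [Fintype.card_piFinset, prod_const, card_univ, Fintype.card_fin, Int.card_Icc] at hinj
  have h7 : ((k : ℤ) + 1 - -(k : ℤ)).toNat = 2 * k + 1 := by omega
  rw [h7] at hinj
  have h8 : (#A : ℝ) ≤ (2 * (k : ℝ) + 1) ^ (d + 1 - r) := by exact_mod_cast hinj
  refine h8.trans (pow_le_pow_left₀ (by positivity) ?_ _)
  have h9 : (1 : ℝ) ≤ max 1 ((T : ℝ) / mah g) := le_max_left _ _
  have h10 : (T : ℝ) / mah g ≤ max 1 ((T : ℝ) / mah g) := le_max_right _ _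
  have h11 : (1 : ℝ) ≤ 2 ^ (d + 2) * (d + 1) := by
    have h12 : (1 : ℝ) ≤ 2 ^ (d + 2) := one_le_pow₀ (by norm_num)
    have h13 : (1 : ℝ) ≤ d + 1 := by
      have : (0 : ℝ) ≤ d := Nat.cast_nonneg _
      linarith
    nlinarith
  calc 2 * (k : ℝ) + 1 ≤ 2 * K + 1 := by linarith
    _ = 2 ^ (d + 2) * (d + 1) * ((T : ℝ) / mah g) + 1 * 1 := by rw [hK]; ring
    _ ≤ 2 ^ (d + 2) * (d + 1) * max 1 ((T : ℝ) / mah g) +
        2 ^ (d + 2) * (d + 1) * max 1 ((T : ℝ) / mah g) := by
        refine add_le_add (mul_le_mul_of_nonneg_left h10 (by positivity)) ?_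
        exact mul_le_mul h11 h9 (by norm_num) (by positivity)
    _ = _ := by ring

end Pool.Agent.Q256.T6
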