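import Mathlib
import Pool.Agent.Q256.T6.Fib

set_option autoImplicit false

/-!
Points of arbitrary degree on the projective line: resultants and norms.
-/

namespace Pool.Agent.Q256.T6

open Finset NumberField
open Pool.Agent.Q256.T3 (P P_coeff P_deg P_sub P_inj P_aeval)

/-- the resultant of `g` and of the form with coefficients `c`. -/
noncomputable def res {d : ℕ} (c : Fin (d + 1) → ℤ) (g : Polynomial ℤ) : ℤ :=
  Polynomial.resultant g (P c) g.natDegree d

theorem res_eq {d : ℕ} (c : Fin (d + 1) → ℤ) (g : Polynomial ℤ) :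
    (res c g : ℂ) = (g.leadingCoeff : ℂ) ^ d *
      ((g.map (Int.castRingHom ℂ)).roots.map (fun z => Polynomial.aeval z (P c))).prod := by
  have hinj : Function.Injective (Int.castRingHom ℂ) := Int.cast_injective
  have h1 : (res c g : ℂ) = Polynomial.resultant (g.map (Int.castRingHom ℂ))
      ((P c).map (Int.castRingHom ℂ)) (g.map (Int.castRingHom ℂ)).natDegree d := by
    rw [Polynomial.natDegree_map_eq_of_injective hinj, Polynomial.resultant_map_map]
    rfl
  have hsp : (g.map (Int.castRingHom ℂ)).Splits := IsAlgClosed.splits _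
  rw [h1, Polynomial.resultant_eq_prod_eval _ _ d (Polynomial.natDegree_map_le.trans (P_deg c)) hsp,
    Polynomial.leadingCoeff_map_of_injective hinj]
  congr 2
  refine Multiset.map_congr rfl (fun z _ => ?_)
  rw [Polynomial.eval_map, Polynomial.aeval_def]
  rfl

theorem aeval_bound {d : ℕ} (c : Fin (d + 1) → ℤ) (T : ℕ) (hc : ∀ i, |c i| ≤ T) (z : ℂ) :
    ‖Polynomial.aeval z (P c)‖ ≤ (d + 1) * T * (max 1 ‖z‖) ^ d := by
  rw [P_aeval]
  refine (norm_sum_le _ _).trans ?_
  have h1 : ∀ i ∈ (univ : Finset (Fin (d + 1))), ‖(c i : ℂ) * z ^ (i : ℕ)‖ ≤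
      T * (max 1 ‖z‖) ^ d := by
    intro i _
    rw [norm_mul, norm_pow, Complex.norm_intCast]
    have h2 : |(c i : ℝ)| ≤ T := by exact_mod_cast hc i
    refine mul_le_mul h2 ?_ (by positivity) (by positivity)
    calc ‖z‖ ^ (i : ℕ) ≤ (max 1 ‖z‖) ^ (i : ℕ) :=
          pow_le_pow_left₀ (norm_nonneg _) (le_max_right _ _) _
      _ ≤ (max 1 ‖z‖) ^ d := pow_le_pow_right₀ (le_max_left _ _) (by omega)
  refine (sum_le_card_nsmul _ _ _ h1).trans (le_of_eq ?_)
  rw [card_univ, Fintype.card_fin, nsmul_eq_mul]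
  push_cast
  ring

theorem mah_eq (g : Polynomial ℤ) : mah g = ‖(g.leadingCoeff : ℂ)‖ *
    ((g.map (Int.castRingHom ℂ)).roots.map (fun z => max 1 ‖z‖)).prod := by
  unfold mah
  rw [Polynomial.mahlerMeasure_eq_leadingCoeff_mul_prod_roots,
    Polynomial.leadingCoeff_map_of_injective Int.cast_injective]
  rfl

theorem one_le_mprod (s : Multiset ℂ) : 1 ≤ (s.map (fun z => max 1 ‖z‖)).prod := by
  induction s using Multiset.induction_on with
  | empty => simp
  | cons a s ih =>
    rw [Multiset.map_cons, Multiset.prod_cons]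
    exact one_le_mul_of_one_le_of_one_le (le_max_left _ _) ih

theorem root_le_mah (g : Polynomial ℤ) (z : ℂ) (hz : z ∈ (g.map (Int.castRingHom ℂ)).roots) :
    ‖(g.leadingCoeff : ℂ)‖ * max 1 ‖z‖ ≤ mah g := by
  rw [mah_eq]
  refine mul_le_mul_of_nonneg_left ?_ (norm_nonneg _)
  obtain ⟨t, ht⟩ := Multiset.exists_cons_of_mem hz
  rw [ht, Multiset.map_cons, Multiset.prod_cons]
  exact le_mul_of_one_le_right (by positivity) (one_le_mprod t)

theorem mprod_bound (f : ℂ → ℂ) (E : ℝ) (hE : 0 ≤ E) (d : ℕ)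
    (hf : ∀ z, ‖f z‖ ≤ E * (max 1 ‖z‖) ^ d) (s : Multiset ℂ) :
    ‖(s.map f).prod‖ ≤ E ^ (Multiset.card s) * (s.map (fun z => max 1 ‖z‖)).prod ^ d := by
  induction s using Multiset.induction_on with
  | empty => simp
  | cons a s ih =>
    rw [Multiset.map_cons, Multiset.prod_cons, norm_mul, Multiset.card_cons, Multiset.map_cons,
      Multiset.prod_cons, mul_pow]
    calc ‖f a‖ * ‖(Multiset.map f s).prod‖ ≤
          (E * (max 1 ‖a‖) ^ d) * (E ^ (Multiset.card s) *
            (s.map (fun z => max 1 ‖z‖)).prod ^ d) :=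
          mul_le_mul (hf a) ih (norm_nonneg _) (by positivity)
      _ = _ := by rw [pow_succ]; ring

theorem res_bound {d : ℕ} (c : Fin (d + 1) → ℤ) (T : ℕ) (hc : ∀ i, |c i| ≤ T) (g : Polynomial ℤ) :
    |(res c g : ℝ)| ≤ ((d + 1) * T) ^ g.natDegree * mah g ^ d := by
  have h1 : |(res c g : ℝ)| = ‖(res c g : ℂ)‖ := by rw [Complex.norm_intCast]
  obtain ⟨E, hE⟩ : ∃ E : ℝ, E = (d + 1) * T := ⟨_, rfl⟩
  have hE0 : 0 ≤ E := by rw [hE]; positivity
  rw [h1, res_eq, norm_mul, norm_pow, mah_eq, ← hE]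
  have h2 := mprod_bound (fun z => Polynomial.aeval z (P c)) E hE0 d
    (fun z => by rw [hE]; exact aeval_bound c T hc z) (g.map (Int.castRingHom ℂ)).roots
  rw [← (Polynomial.splits_iff_card_roots.1 (IsAlgClosed.splits
      (g.map (Int.castRingHom ℂ)))).symm, Polynomial.natDegree_map_eq_of_injective
        Int.cast_injective] at h2
  calc ‖(g.leadingCoeff : ℂ)‖ ^ d *
        ‖((g.map (Int.castRingHom ℂ)).roots.map (fun z => Polynomial.aeval z (P c))).prod‖ ≤
        ‖(g.leadingCoeff : ℂ)‖ ^ d * (E ^ g.natDegree *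
        ((g.map (Int.castRingHom ℂ)).roots.map (fun z => max 1 ‖z‖)).prod ^ d) :=
        mul_le_mul_of_nonneg_left h2 (by positivity)
    _ = _ := by rw [mul_pow]; ring

/-- the field generated by a root. -/
theorem exists_field (g : Polynomial ℤ) (hg : Irreducible g) (h1 : 1 ≤ g.natDegree) :
    ∃ (K : Type) (_ : Field K) (_ : NumberField K) (x : K), Module.finrank ℚ K = g.natDegree ∧
      Algebra.adjoin ℚ {x} = ⊤ ∧ Polynomial.aeval x g = 0 ∧
      ∀ p : Polynomial ℤ, Polynomial.aeval x p = 0 → g ∣ p := by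
  have hprim : g.IsPrimitive := hg.isPrimitive (by omega)
  have hirr : Irreducible (g.map (Int.castRingHom ℚ)) :=
    (Polynomial.IsPrimitive.Int.irreducible_iff_irreducible_map_cast hprim).1 hg
  have : Fact (Irreducible (g.map (Int.castRingHom ℚ))) := ⟨hirr⟩
  have hhom : (Polynomial.aeval (AdjoinRoot.root (g.map (Int.castRingHom ℚ))) :
      Polynomial ℤ →ₐ[ℤ] AdjoinRoot (g.map (Int.castRingHom ℚ))).toRingHom =
      (AdjoinRoot.mk (g.map (Int.castRingHom ℚ))).comp
        (Polynomial.mapRingHom (Int.castRingHom ℚ)) := by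
    apply Polynomial.ringHom_ext
    · intro a; simp
    · simp
  have hmap : ∀ q : Polynomial ℤ, Polynomial.aeval
      (AdjoinRoot.root (g.map (Int.castRingHom ℚ))) q =
      AdjoinRoot.mk (g.map (Int.castRingHom ℚ)) (q.map (Int.castRingHom ℚ)) :=
    fun q => RingHom.congr_fun hhom q
  refine ⟨AdjoinRoot (g.map (Int.castRingHom ℚ)), inferInstance, inferInstance,
    AdjoinRoot.root _, ?_, AdjoinRoot.adjoinRoot_eq_top, ?_, ?_⟩
  · rw [(AdjoinRoot.powerBasis hirr.ne_zero).finrank, AdjoinRoot.powerBasis_dim,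
      Polynomial.natDegree_map_eq_of_injective Int.cast_injective]
  · have h3 : Polynomial.aeval (AdjoinRoot.root (g.map (Int.castRingHom ℚ))) g = 0 := by
      rw [hmap, AdjoinRoot.mk_self]
    exact h3
  · intro p hp
    have hp' : Polynomial.aeval (AdjoinRoot.root (g.map (Int.castRingHom ℚ))) p = 0 := hp
    rw [hmap, AdjoinRoot.mk_eq_zero] at hp'
    exact (Polynomial.IsPrimitive.Int.dvd_iff_map_cast_dvd_map_cast _ _ hprim).2 hp'

/-- the conjugates of `x` are the complex roots of `g`. -/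
theorem roots_eq (g : Polynomial ℤ) (K : Type) [Field K] [NumberField K] (x : K)
    (hfr : Module.finrank ℚ K = g.natDegree) (hx : Algebra.adjoin ℚ {x} = ⊤) (hg0 : g ≠ 0)
    (h0 : Polynomial.aeval x g = 0) :
    (univ : Finset (K →ₐ[ℚ] ℂ)).val.map (fun σ => σ x) = (g.map (Int.castRingHom ℂ)).roots := by
  classical
  have hinj : Function.Injective (fun σ : K →ₐ[ℚ] ℂ => σ x) := by
    intro σ τ h
    refine AlgHom.ext_of_adjoin_eq_top hx ?_
    intro y hy
    rw [Set.mem_singleton_iff] at hy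
    rw [hy]
    exact h
  have hnd : ((univ : Finset (K →ₐ[ℚ] ℂ)).val.map (fun σ => σ x)).Nodup :=
    Multiset.Nodup.map hinj univ.nodup
  refine Multiset.eq_of_le_of_card_le ?_ ?_
  · rw [Multiset.le_iff_subset hnd]
    intro z hz
    obtain ⟨σ, _, rfl⟩ := Multiset.mem_map.1 hz
    rw [Polynomial.mem_roots]
    · rw [Polynomial.IsRoot.def, Polynomial.eval_map]
      have h1 : Polynomial.aeval (σ x) g = 0 := by
        have h2 : Polynomial.aeval (σ x) g = σ (Polynomial.aeval x g) :=
          Polynomial.aeval_algHom_apply (σ : K →+* ℂ).toIntAlgHom x g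
        rw [h2, h0, map_zero]
      exact h1
    · exact (Polynomial.map_ne_zero_iff Int.cast_injective).2 hg0
  · rw [Multiset.card_map]
    refine (Polynomial.card_roots' _).trans ?_
    rw [Polynomial.natDegree_map_eq_of_injective Int.cast_injective, ← hfr]
    have := AlgHom.card ℚ K ℂ
    exact le_of_eq this.symm

end Pool.Agent.Q256.T6
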