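import Mathlib
import Pool.Agent.Q256.T6.Def
import Pool.Agent.Q256.T6.Val
import Pool.Agent.Q256.T3.Dat

set_option autoImplicit false

/-!
Points of arbitrary degree on the projective line: the forms with small value at a fixed point.
-/

namespace Pool.Agent.Q256.T6

open Finset NumberField
open Pool.Agent.Q256.T3 (P P_coeff P_deg P_sub P_inj P_aeval mS card_mS)
open Pool.Agent.H813R3.Voj (rho rho_pos)

theorem card_le_real {α β : Type*} [DecidableEq β] (f : α → β) (s : Finset α) (B : ℝ)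
    (h : ∀ b ∈ s.image f, (#{a ∈ s | f a = b} : ℝ) ≤ B) : (#s : ℝ) ≤ B * #(s.image f) := by
  have h1 := card_eq_sum_card_image f s
  rw [h1]
  push_cast
  refine (sum_le_card_nsmul _ _ B h).trans (le_of_eq ?_)
  rw [nsmul_eq_mul, mul_comm]

/-- **Norm equations in boxes.** -/
theorem norm_box (hI : S_Ideals) (hG : S_Gens) (r : ℕ) (ε : ℝ) (hε : 0 < ε) :
    ∃ C : ℝ, 0 < C ∧ ∀ (K : Type) [Field K] [NumberField K], Module.finrank ℚ K = r →
      ∀ (n : ℕ) (B : ℝ) (Z : Finset (𝓞 K)), 1 ≤ n → 1 ≤ B →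
        (∀ z ∈ Z, (Algebra.norm ℤ z).natAbs = n ∧ ∀ σ : K →+* ℂ, ‖σ z‖ ≤ B) →
          (#Z : ℝ) ≤ C * B ^ ε := by
  classical
  obtain ⟨C1, h1⟩ := hI r (ε / (2 * (r + 1))) (by positivity)
  obtain ⟨C2, h2⟩ := hG r
  -- the logarithm
  obtain ⟨C3, hC3, h3⟩ : ∃ C3 : ℝ, 0 < C3 ∧ ∀ B : ℝ, 1 ≤ B →
      (1 + Real.log B) ^ r ≤ C3 * B ^ (ε / 2) := by
    refine ⟨(1 + 2 * (r + 1) / ε) ^ r, by positivity, fun B hB => ?_⟩
    have hB0 : 0 < B := by linarith
    have e1 : Real.log B ≤ 2 * (r + 1) / ε * B ^ (ε / (2 * (r + 1))) := by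
      have := Real.log_le_rpow_div hB0.le (by positivity : 0 < ε / (2 * ((r : ℝ) + 1)))
      refine this.trans (le_of_eq ?_)
      field_simp
    have e2 : 1 ≤ B ^ (ε / (2 * ((r : ℝ) + 1))) := Real.one_le_rpow hB (by positivity)
    have e3 : 1 + Real.log B ≤ (1 + 2 * (r + 1) / ε) * B ^ (ε / (2 * ((r : ℝ) + 1))) := by
      rw [add_mul, one_mul]; linarith
    have e4 : 0 ≤ 1 + Real.log B := by have := Real.log_nonneg hB; linarith
    refine (pow_le_pow_left₀ e4 e3 r).trans ?_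
    rw [mul_pow]
    refine mul_le_mul_of_nonneg_left ?_ (by positivity)
    rw [← Real.rpow_natCast (B ^ _) r, ← Real.rpow_mul hB0.le]
    refine Real.rpow_le_rpow_of_exponent_le hB ?_
    rw [div_mul_eq_mul_div, div_le_div_iff₀ (by positivity) (by norm_num)]
    nlinarith
  refine ⟨(|C1| + 1) * (|C2| + 1) * C3, by positivity, fun K _ _ hK n B Z hn hB hZ => ?_⟩
  have hB0 : 0 < B := by linarith
  rcases Z.eq_empty_or_nonempty with h0 | ⟨z0, hz0⟩
  · subst h0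
    simp only [card_empty, Nat.cast_zero]
    positivity
  -- `n ≤ B ^ r`
  have hnB : (n : ℝ) ≤ B ^ r := by
    obtain ⟨hz1, hz2⟩ := hZ z0 hz0
    have e1 : ((Algebra.norm ℚ (z0 : K) : ℚ) : ℂ) = ∏ σ : K →ₐ[ℚ] ℂ, σ (z0 : K) :=
      Algebra.norm_eq_prod_embeddings ℚ ℂ (z0 : K)
    have e2 : ((Algebra.norm ℤ z0 : ℤ) : ℚ) = Algebra.norm ℚ (z0 : K) := Algebra.coe_norm_int z0
    rw [← e2] at e1
    have e3 : ‖(((Algebra.norm ℤ z0 : ℤ) : ℚ) : ℂ)‖ = n := by
      rw [← hz1, Nat.cast_natAbs]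
      push_cast
      rw [Complex.norm_intCast]
    rw [e1, norm_prod] at e3
    rw [← e3]
    calc ∏ σ : K →ₐ[ℚ] ℂ, ‖σ (z0 : K)‖ ≤ ∏ _σ : K →ₐ[ℚ] ℂ, B :=
          prod_le_prod (fun _ _ => norm_nonneg _) (fun σ _ => hz2 (σ : K →+* ℂ))
      _ = B ^ r := by
          rw [prod_const, card_univ, AlgHom.card, hK]
  have hIne : ∀ z ∈ Z, Ideal.span {z} ≠ ⊥ := by
    intro z hz h
    rw [Ideal.span_singleton_eq_bot] at h
    have := (hZ z hz).1
    rw [h, Algebra.norm_zero] at this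
    simp at this
    omega
  -- the fibres
  have hfib : ∀ I ∈ Z.image (fun z => Ideal.span {z}),
      (#{z ∈ Z | Ideal.span {z} = I} : ℝ) ≤ (|C2| + 1) * (C3 * B ^ (ε / 2)) := by
    intro I hI'
    obtain ⟨z1, hz1, rfl⟩ := mem_image.1 hI'
    have e1 := h2 K hK (Ideal.span {z1}) B (hIne z1 hz1) hB
    have hfin : {z : 𝓞 K | Ideal.span {z} = Ideal.span {z1} ∧
        ∀ σ : K →+* ℂ, ‖σ z‖ ≤ B}.Finite := by
      have e2 := NumberField.Embeddings.finite_of_norm_le K ℂ B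
      refine Set.Finite.of_finite_image (f := fun z : 𝓞 K => (z : K)) (e2.subset ?_)
        (fun a _ b _ h => RingOfIntegers.ext h)
      rintro _ ⟨z, hz, rfl⟩
      exact ⟨z.2, hz.2⟩
    have e3 : (#{z ∈ Z | Ideal.span {z} = Ideal.span {z1}} : ℝ) ≤
        ({z : 𝓞 K | Ideal.span {z} = Ideal.span {z1} ∧ ∀ σ : K →+* ℂ, ‖σ z‖ ≤ B}.ncard : ℝ) := by
      have e4 := Set.ncard_le_ncard (s := ((Z.filter (fun z =>
        Ideal.span {z} = Ideal.span {z1}) : Finset (𝓞 K)) : Set (𝓞 K))) (t := {z : 𝓞 K |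
        Ideal.span {z} = Ideal.span {z1} ∧ ∀ σ : K →+* ℂ, ‖σ z‖ ≤ B}) ?_ hfin
      · rw [Set.ncard_coe_finset] at e4
        exact_mod_cast e4
      · intro z hz
        rw [mem_coe, mem_filter] at hz
        exact ⟨hz.2, (hZ z hz.1).2⟩
    have e5 : 0 ≤ (1 + Real.log B) ^ r := by
      have := Real.log_nonneg hB
      positivity
    calc (#{z ∈ Z | Ideal.span {z} = Ideal.span {z1}} : ℝ) ≤ C2 * (1 + Real.log B) ^ r :=
          e3.trans e1
      _ ≤ (|C2| + 1) * (1 + Real.log B) ^ r :=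
          mul_le_mul_of_nonneg_right (by linarith [le_abs_self C2]) e5
      _ ≤ _ := mul_le_mul_of_nonneg_left (h3 B hB) (by positivity)
  have himg : (#(Z.image (fun z => Ideal.span {z})) : ℝ) ≤ (|C1| + 1) * B ^ (ε / 2) := by
    have e1 := h1 K hK n hn
    have hfin : {I : Ideal (𝓞 K) | Ideal.absNorm I = n}.Finite := Ideal.finite_setOfPred_absNorm_eq n
    have e3 : (#(Z.image (fun z => Ideal.span {z})) : ℝ) ≤
        ({I : Ideal (𝓞 K) | Ideal.absNorm I = n}.ncard : ℝ) := by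
      have e4 := Set.ncard_le_ncard (s := ((Z.image (fun z => Ideal.span {z}) :
        Finset (Ideal (𝓞 K))) : Set (Ideal (𝓞 K)))) (t := {I : Ideal (𝓞 K) |
        Ideal.absNorm I = n}) ?_ hfin
      · rw [Set.ncard_coe_finset] at e4
        exact_mod_cast e4
      · intro I hI'
        rw [mem_coe, mem_image] at hI'
        obtain ⟨z, hz, rfl⟩ := hI'
        change Ideal.absNorm (Ideal.span {z}) = n
        rw [Ideal.absNorm_span_singleton]
        exact (hZ z hz).1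
    have hn0 : (0 : ℝ) ≤ n := Nat.cast_nonneg n
    have e6 : (n : ℝ) ^ (ε / (2 * ((r : ℝ) + 1))) ≤ B ^ (ε / 2) := by
      calc (n : ℝ) ^ (ε / (2 * ((r : ℝ) + 1))) ≤ (B ^ r) ^ (ε / (2 * ((r : ℝ) + 1))) :=
            Real.rpow_le_rpow hn0 hnB (by positivity)
        _ = B ^ (r * (ε / (2 * ((r : ℝ) + 1)))) := by
            rw [← Real.rpow_natCast B r, ← Real.rpow_mul hB0.le]
        _ ≤ _ := by
            refine Real.rpow_le_rpow_of_exponent_le hB ?_
            rw [mul_div_assoc', div_le_div_iff₀ (by positivity) (by norm_num)]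
            nlinarith
    calc (#(Z.image (fun z => Ideal.span {z})) : ℝ) ≤ C1 * (n : ℝ) ^ (ε / (2 * ((r : ℝ) + 1))) :=
          e3.trans e1
      _ ≤ (|C1| + 1) * (n : ℝ) ^ (ε / (2 * ((r : ℝ) + 1))) :=
          mul_le_mul_of_nonneg_right (by linarith [le_abs_self C1]) (by positivity)
      _ ≤ _ := mul_le_mul_of_nonneg_left e6 (by positivity)
  have e7 : B ^ ε = B ^ (ε / 2) * B ^ (ε / 2) := by
    rw [← Real.rpow_add hB0]; congr 1; ring
  calc (#Z : ℝ) ≤ (|C2| + 1) * (C3 * B ^ (ε / 2)) * #(Z.image (fun z => Ideal.span {z})) :=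
        card_le_real _ Z _ hfib
    _ ≤ (|C2| + 1) * (C3 * B ^ (ε / 2)) * ((|C1| + 1) * B ^ (ε / 2)) :=
        mul_le_mul_of_nonneg_left himg (by positivity)
    _ = _ := by rw [e7]; ring

end Pool.Agent.Q256.T6
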