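import Mathlib
import Pool.Agent.Q256.T6.Nrm

set_option autoImplicit false

/-!
Points of arbitrary degree on the projective line: one point.
-/

namespace Pool.Agent.Q256.T6

open Finset NumberField
open Pool.Agent.Q256.T3 (P P_coeff P_deg P_sub P_inj P_aeval mS card_mS)
open Pool.Agent.H813R3.Voj (rho rho_pos)

theorem exists_w {d : ℕ} (g : Polynomial ℤ) (K : Type) [Field K] [NumberField K] (x : K)
    (h0 : Polynomial.aeval x g = 0) (c : Fin (d + 1) → ℤ) :
    ∃ w : 𝓞 K, (w : K) = (g.leadingCoeff : K) ^ d * Polynomial.aeval x (P c) := by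
  have h1 : IsIntegral ℤ ((g.leadingCoeff : K) * x) := by
    have := isIntegral_leadingCoeff_smul (R := ℤ) g x h0
    rwa [zsmul_eq_mul] at this
  have h2 : IsIntegral ℤ ((g.leadingCoeff : K) ^ d * Polynomial.aeval x (P c)) := by
    have h3 : (g.leadingCoeff : K) ^ d * Polynomial.aeval x (P c) =
        ∑ i : Fin (d + 1), ((c i : K) * (g.leadingCoeff : K) ^ (d - (i : ℕ))) *
          ((g.leadingCoeff : K) * x) ^ (i : ℕ) := by
      unfold P
      rw [map_sum, mul_sum]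
      refine sum_congr rfl (fun i _ => ?_)
      have h4 : (g.leadingCoeff : K) ^ d =
          (g.leadingCoeff : K) ^ (d - (i : ℕ)) * (g.leadingCoeff : K) ^ (i : ℕ) := by
        rw [← pow_add]; congr 1; omega
      rw [h4]
      simp only [map_mul, map_pow, Polynomial.aeval_X, eq_intCast, map_intCast]
      ring
    rw [h3]
    refine IsIntegral.sum _ (fun i _ => IsIntegral.mul (IsIntegral.mul ?_ (IsIntegral.pow ?_ _))
      (h1.pow _))
    · exact isIntegral_algebraMap (R := ℤ) (x := c i)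
    · exact isIntegral_algebraMap (R := ℤ) (x := g.leadingCoeff)
  exact ⟨⟨_, h2⟩, rfl⟩

theorem aeval_emb (K : Type) [Field K] [NumberField K] (σ : K →+* ℂ) (x : K)
    (p : Polynomial ℤ) : σ (Polynomial.aeval x p) = Polynomial.aeval (σ x) p :=
  (Polynomial.aeval_algHom_apply σ.toIntAlgHom x p).symm

theorem norm_w {d : ℕ} (g : Polynomial ℤ) (hg0 : g ≠ 0) (K : Type) [Field K] [NumberField K]
    (x : K) (hfr : Module.finrank ℚ K = g.natDegree) (hx : Algebra.adjoin ℚ {x} = ⊤)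
    (h0 : Polynomial.aeval x g = 0) (c : Fin (d + 1) → ℤ) (w : 𝓞 K)
    (hw : (w : K) = (g.leadingCoeff : K) ^ d * Polynomial.aeval x (P c)) :
    g.leadingCoeff ^ d * Algebra.norm ℤ w = g.leadingCoeff ^ (d * g.natDegree) * res c g := by
  have e1 : ((Algebra.norm ℚ (w : K) : ℚ) : ℂ) = ∏ σ : K →ₐ[ℚ] ℂ, σ (w : K) :=
    Algebra.norm_eq_prod_embeddings ℚ ℂ (w : K)
  have e2 : ((Algebra.norm ℤ w : ℤ) : ℚ) = Algebra.norm ℚ (w : K) := Algebra.coe_norm_int w
  have e3 : ∏ σ : K →ₐ[ℚ] ℂ, σ (w : K) = (g.leadingCoeff : ℂ) ^ (d * g.natDegree) *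
      ((g.map (Int.castRingHom ℂ)).roots.map (fun z => Polynomial.aeval z (P c))).prod := by
    have e4 : ∀ σ : K →ₐ[ℚ] ℂ, σ (w : K) = (g.leadingCoeff : ℂ) ^ d *
        Polynomial.aeval (σ x) (P c) := by
      intro σ
      rw [hw, map_mul, map_pow, map_intCast]
      congr 1
      exact aeval_emb K (σ : K →+* ℂ) x (P c)
    rw [prod_congr rfl (fun σ _ => e4 σ), prod_mul_distrib, prod_const, card_univ, AlgHom.card, hfr,
      ← pow_mul, ← roots_eq g K x hfr hx hg0 h0, Multiset.map_map]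
    rfl
  rw [← e2, e3] at e1
  have e5 := res_eq c g
  have e6 : ((g.leadingCoeff ^ d * Algebra.norm ℤ w : ℤ) : ℂ) =
      ((g.leadingCoeff ^ (d * g.natDegree) * res c g : ℤ) : ℂ) := by
    push_cast
    have e7 : ((Algebra.norm ℤ w : ℤ) : ℂ) = (((Algebra.norm ℤ w : ℤ) : ℚ) : ℂ) := by
      push_cast; rfl
    rw [e7, e1, e5]
    ring
  exact_mod_cast e6

theorem w_bound {d : ℕ} (g : Polynomial ℤ) (hg0 : g ≠ 0) (K : Type) [Field K] [NumberField K]
    (x : K) (h0 : Polynomial.aeval x g = 0) (c : Fin (d + 1) → ℤ) (T : ℕ)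
    (hc : ∀ i, |c i| ≤ T) (w : 𝓞 K)
    (hw : (w : K) = (g.leadingCoeff : K) ^ d * Polynomial.aeval x (P c)) (σ : K →+* ℂ) :
    ‖σ w‖ ≤ (d + 1) * T * mah g ^ d := by
  have h1 : σ (w : K) = (g.leadingCoeff : ℂ) ^ d * Polynomial.aeval (σ x) (P c) := by
    rw [hw, map_mul, map_pow, map_intCast, aeval_emb]
  have hroot : σ x ∈ (g.map (Int.castRingHom ℂ)).roots := by
    rw [Polynomial.mem_roots ((Polynomial.map_ne_zero_iff Int.cast_injective).2 hg0),
      Polynomial.IsRoot.def, Polynomial.eval_map]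
    have h2 : Polynomial.aeval (σ x) g = 0 := by rw [← aeval_emb, h0, map_zero]
    exact h2
  have h3 := root_le_mah g _ hroot
  have h4 := aeval_bound c T hc (σ x)
  rw [h1, norm_mul, norm_pow]
  calc ‖(g.leadingCoeff : ℂ)‖ ^ d * ‖Polynomial.aeval (σ x) (P c)‖ ≤
        ‖(g.leadingCoeff : ℂ)‖ ^ d * ((d + 1) * T * (max 1 ‖σ x‖) ^ d) :=
        mul_le_mul_of_nonneg_left h4 (by positivity)
    _ = (d + 1) * T * (‖(g.leadingCoeff : ℂ)‖ * max 1 ‖σ x‖) ^ d := by rw [mul_pow]; ring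
    _ ≤ _ := by
        refine mul_le_mul_of_nonneg_left (pow_le_pow_left₀ (by positivity) h3 d) (by positivity)

/-- **One point.** -/
theorem per_g (hI : S_Ideals) (hG : S_Gens) (d r : ℕ) (hr : 1 ≤ r) (S : Finset ℕ) (ε : ℝ)
    (hε : 0 < ε) :
    ∃ C : ℝ, 0 < C ∧ ∀ (g : Polynomial ℤ), Irreducible g → g.natDegree = r →
      ∀ (T : ℕ) (ρ : ℝ) (F : Finset (Fin (d + 1) → ℤ)), 1 ≤ T → 0 ≤ ρ →
        (∀ c ∈ F, (∀ i, |c i| ≤ T) ∧ res c g ≠ 0 ∧ (rho S (res c g) : ℝ) ≤ ρ) →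
          (#F : ℝ) ≤ C * (T * mah g) ^ ε * ρ * (max 1 ((T : ℝ) / mah g)) ^ (d + 1 - r) := by
  classical
  obtain ⟨C1, hC1, h1⟩ := norm_box hI hG r (ε / (2 * (d + 1))) (by positivity)
  obtain ⟨C2, hC2, h2⟩ := card_mS S (ε / (2 * (d + r + 1))) (by positivity)
  obtain ⟨Q, hQ⟩ : ∃ Q : ℝ, Q = 2 ^ (d + 3) * (d + 1) := ⟨_, rfl⟩
  have hQ0 : 0 < Q := by rw [hQ]; positivity
  refine ⟨C1 * ((d : ℝ) + 1) ^ (ε / (2 * (d + 1))) * (C2 * (2 * ((d : ℝ) + 1) ^ r) ^
    (ε / (2 * (d + r + 1)))) * Q ^ (d + 1 - r), by positivity, ?_⟩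
  intro g hg hgr T ρ F hT hρ hF
  have hg0 : g ≠ 0 := hg.ne_zero
  have hM1 := one_le_mah g hg0
  have hM0 : 0 < mah g := by linarith
  have hTr : (1 : ℝ) ≤ T := by exact_mod_cast hT
  have hT0 : (0 : ℝ) < T := by linarith
  have hTM : 1 ≤ T * mah g := one_le_mul_of_one_le_of_one_le hTr hM1
  obtain ⟨K, _, _, x, hfr, hx, h0, hdiv⟩ := exists_field g hg (by omega)
  have hw : ∀ c : Fin (d + 1) → ℤ, ∃ w : 𝓞 K,
      (w : K) = (g.leadingCoeff : K) ^ d * Polynomial.aeval x (P c) :=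
    fun c => exists_w g K x h0 c
  choose w hw using hw
  have hlc : g.leadingCoeff ≠ 0 := Polynomial.leadingCoeff_ne_zero.2 hg0
  have hlcK : (g.leadingCoeff : K) ≠ 0 := by exact_mod_cast hlc
  -- the fibres over `w`
  have hfib : ∀ b ∈ F.image w, (#{c ∈ F | w c = b} : ℝ) ≤
      (Q * max 1 ((T : ℝ) / mah g)) ^ (d + 1 - r) := by
    intro b _
    rw [hQ]
    refine fibre T hT r hr g hgr _ (fun c hc => (hF c (mem_filter.1 hc).1).1) ?_
    intro c hc c' hc'
    apply hdiv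
    have e1 : w c = w c' := by rw [(mem_filter.1 hc).2, (mem_filter.1 hc').2]
    have e2 : (w c : K) = (w c' : K) := by rw [e1]
    rw [hw, hw] at e2
    rw [map_sub, sub_eq_zero]
    exact mul_left_cancel₀ (pow_ne_zero _ hlcK) e2
  have h3 := card_le_real w F _ hfib
  -- the values
  obtain ⟨B, hB⟩ : ∃ B : ℝ, B = (d + 1) * T * mah g ^ d := ⟨_, rfl⟩
  have hd1 : (1 : ℝ) ≤ (d : ℝ) + 1 := by have : (0 : ℝ) ≤ d := Nat.cast_nonneg _; linarith
  have hMd : (1 : ℝ) ≤ mah g ^ d := one_le_pow₀ hM1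
  have hB1 : 1 ≤ B := by
    rw [hB]
    exact one_le_mul_of_one_le_of_one_le (one_le_mul_of_one_le_of_one_le hd1 hTr) hMd
  obtain ⟨nm, hnm⟩ : ∃ nm : 𝓞 K → ℕ, nm = fun z => (Algebra.norm ℤ z).natAbs := ⟨_, rfl⟩
  have hnorm : ∀ c, g.leadingCoeff.natAbs ^ d * nm (w c) =
      g.leadingCoeff.natAbs ^ (d * r) * (res c g).natAbs := by
    intro c
    have e1 := norm_w g hg0 K x hfr hx h0 c (w c) (hw c)
    have e2 := congrArg Int.natAbs e1
    rw [Int.natAbs_mul, Int.natAbs_mul, Int.natAbs_pow, Int.natAbs_pow, hgr] at e2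
    rw [hnm]
    exact e2
  have hlcN : 0 < g.leadingCoeff.natAbs := Int.natAbs_pos.2 hlc
  have hval : ∀ n ∈ (F.image w).image nm, (#{z ∈ F.image w | nm z = n} : ℝ) ≤
      C1 * B ^ (ε / (2 * (d + 1))) := by
    intro n hn
    obtain ⟨z, hz, hzn⟩ := mem_image.1 hn
    obtain ⟨c, hc, hcz⟩ := mem_image.1 hz
    have hn1 : 1 ≤ n := by
      rw [Nat.one_le_iff_ne_zero]
      intro h
      rw [← hzn, ← hcz] at h
      have e1 := hnorm c
      rw [h, mul_zero] at e1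
      have e2 := Nat.mul_ne_zero (pow_ne_zero (d * r) hlcN.ne')
        (Int.natAbs_ne_zero.2 (hF c hc).2.1)
      exact e2 e1.symm
    refine h1 K (by rw [hfr, hgr]) n B _ hn1 hB1 ?_
    intro z' hz'
    rw [mem_filter, mem_image] at hz'
    obtain ⟨⟨c', hc', rfl⟩, h4⟩ := hz'
    rw [hnm] at h4
    refine ⟨h4, fun σ => ?_⟩
    rw [hB]
    exact w_bound g hg0 K x h0 c' T (hF c' hc').1 (w c') (hw c') σ
  have h4 := card_le_real nm (F.image w) _ hval
  -- the norms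
  obtain ⟨X, hX⟩ : ∃ X : ℕ, X = ⌈((d + 1) * T : ℝ) ^ r * mah g ^ d⌉₊ := ⟨_, rfl⟩
  have hXr : (1 : ℝ) ≤ ((d + 1) * T : ℝ) ^ r * mah g ^ d :=
    one_le_mul_of_one_le_of_one_le (one_le_pow₀ (one_le_mul_of_one_le_of_one_le hd1 hTr)) hMd
  have hX1 : 1 ≤ X := by
    rw [hX]; exact Nat.one_le_iff_ne_zero.2 (Nat.ceil_pos.2 (by linarith)).ne'
  have hX2 : (X : ℝ) ≤ 2 * ((d : ℝ) + 1) ^ r * (T * mah g) ^ (d + r + 1) := by
    have e1 : (X : ℝ) ≤ ((d + 1) * T : ℝ) ^ r * mah g ^ d + 1 := by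
      rw [hX]; exact (Nat.ceil_lt_add_one (by linarith)).le
    have e2 : (T : ℝ) ^ r * mah g ^ d ≤ (T * mah g) ^ (d + r + 1) := by
      rw [mul_pow]
      exact mul_le_mul (pow_le_pow_right₀ hTr (by omega)) (pow_le_pow_right₀ hM1 (by omega))
        (by positivity) (by positivity)
    calc (X : ℝ) ≤ 2 * (((d + 1) * T : ℝ) ^ r * mah g ^ d) := by linarith
      _ = 2 * ((d : ℝ) + 1) ^ r * ((T : ℝ) ^ r * mah g ^ d) := by rw [mul_pow]; ring
      _ ≤ _ := mul_le_mul_of_nonneg_left e2 (by positivity)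
  have h5 : #((F.image w).image nm) ≤ #(mS S X ρ 1) := by
    have e1 : (F.image w).image nm ⊆ (mS S X ρ 1).image (fun v : ℤ =>
        g.leadingCoeff.natAbs ^ (d * r) * v.natAbs / g.leadingCoeff.natAbs ^ d) := by
      intro n hn
      obtain ⟨z, hz, hzn⟩ := mem_image.1 hn
      obtain ⟨c, hc, hcz⟩ := mem_image.1 hz
      rw [mem_image]
      obtain ⟨hc1, hc2, hc3⟩ := hF c hc
      refine ⟨res c g, ?_, ?_⟩
      · unfold mS
        rw [mem_filter, mem_Icc, ← abs_le]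
        refine ⟨?_, hc2, ?_⟩
        · have e2 := res_bound c T hc1 g
          rw [hgr] at e2
          have e3 : |(res c g : ℝ)| ≤ X := by
            refine e2.trans ?_
            rw [hX]; exact Nat.le_ceil _
          exact_mod_cast e3
        · simpa using hc3
      · rw [← hzn, ← hcz, ← hnorm c]
        exact Nat.mul_div_cancel_left _ (pow_pos hlcN d)
    exact (card_le_card e1).trans card_image_le
  have h6 := h2 X ρ 1 hX1 hρ one_ne_zero
  have hBe : B ^ (ε / (2 * (d + 1))) ≤ ((d : ℝ) + 1) ^ (ε / (2 * (d + 1))) *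
      (T * mah g) ^ (ε / 2) := by
    have e1 : B ≤ ((d : ℝ) + 1) * (T * mah g) ^ (d + 1) := by
      rw [hB, mul_assoc]
      refine mul_le_mul_of_nonneg_left ?_ (by positivity)
      rw [mul_pow]
      refine mul_le_mul ?_ (pow_le_pow_right₀ hM1 (by omega)) (by positivity) (by positivity)
      calc (T : ℝ) = (T : ℝ) ^ 1 := (pow_one _).symm
        _ ≤ _ := pow_le_pow_right₀ hTr (by omega)
    calc B ^ (ε / (2 * (d + 1))) ≤ (((d : ℝ) + 1) * (T * mah g) ^ (d + 1)) ^ (ε / (2 * (d + 1))) :=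
          Real.rpow_le_rpow (by linarith) e1 (by positivity)
      _ = _ := by
          rw [Real.mul_rpow (by positivity) (by positivity), ← Real.rpow_natCast (T * mah g),
            ← Real.rpow_mul (by positivity)]
          congr 2
          push_cast
          field_simp
  have hXe : (X : ℝ) ^ (ε / (2 * (d + r + 1))) ≤ (2 * ((d : ℝ) + 1) ^ r) ^
      (ε / (2 * (d + r + 1))) * (T * mah g) ^ (ε / 2) := by
    calc (X : ℝ) ^ (ε / (2 * (d + r + 1))) ≤ (2 * ((d : ℝ) + 1) ^ r *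
          (T * mah g) ^ (d + r + 1)) ^ (ε / (2 * (d + r + 1))) :=
          Real.rpow_le_rpow (Nat.cast_nonneg _) hX2 (by positivity)
      _ = _ := by
          rw [Real.mul_rpow (by positivity) (by positivity), ← Real.rpow_natCast (T * mah g),
            ← Real.rpow_mul (by positivity)]
          congr 2
          push_cast
          field_simp
  have h7 : (#((F.image w).image nm) : ℝ) ≤ C2 * ρ * ((2 * ((d : ℝ) + 1) ^ r) ^
      (ε / (2 * (d + r + 1))) * (T * mah g) ^ (ε / 2)) := by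
    have e1 : (#((F.image w).image nm) : ℝ) ≤ #(mS S X ρ 1) := by exact_mod_cast h5
    refine e1.trans (h6.trans ?_)
    rw [Int.cast_one, abs_one, div_one, mul_one]
    exact mul_le_mul_of_nonneg_left hXe (by positivity)
  have e8 : (T * mah g) ^ ε = (T * mah g) ^ (ε / 2) * (T * mah g) ^ (ε / 2) := by
    rw [← Real.rpow_add (by linarith)]; congr 1; ring
  calc (#F : ℝ) ≤ (Q * max 1 ((T : ℝ) / mah g)) ^ (d + 1 - r) * #(F.image w) := h3
    _ ≤ (Q * max 1 ((T : ℝ) / mah g)) ^ (d + 1 - r) * ((C1 * (((d : ℝ) + 1) ^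
        (ε / (2 * (d + 1))) * (T * mah g) ^ (ε / 2))) * (C2 * ρ * ((2 * ((d : ℝ) + 1) ^ r) ^
        (ε / (2 * (d + r + 1))) * (T * mah g) ^ (ε / 2)))) := by
        refine mul_le_mul_of_nonneg_left ?_ (by positivity)
        refine h4.trans ?_
        exact mul_le_mul (mul_le_mul_of_nonneg_left hBe hC1.le) h7 (Nat.cast_nonneg _)
          (by positivity)
    _ = _ := by rw [e8, mul_pow]; ring

end Pool.Agent.Q256.T6
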