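import Mathlib
import Pool.Agent.Q256.T6.Per
import Pool.Agent.Q256.UP.InA

set_option autoImplicit false

/-!
Points of arbitrary degree on the projective line: all points.
-/

namespace Pool.Agent.Q256.T6

open Finset
open Pool.Agent.Q256.UP (sph mem_sph card_sph)
open Pool.Agent.H813R3.Voj (rho rho_pos)

theorem sum_poly (r : ℕ) (t : ℝ) (ht : 0 < t) :
    ∃ C : ℝ, 0 < C ∧ ∀ (Y : ℝ) (G : Finset (Polynomial ℤ)), 1 ≤ Y →
      (∀ g ∈ G, g ≠ 0 ∧ g.natDegree ≤ r ∧ mah g ≤ Y) →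
        ∑ g ∈ G, (mah g ^ (r + 1))⁻¹ ≤ C * Y ^ t := by
  classical
  have hZs : Summable (fun q : ℕ => (q : ℝ) ^ (-1 - t)) := Real.summable_nat_rpow.2 (by linarith)
  obtain ⟨Z, hZ⟩ : ∃ Z : ℝ, Z = ∑' q : ℕ, (q : ℝ) ^ (-1 - t) := ⟨_, rfl⟩
  have hZ0 : 0 ≤ Z := by rw [hZ]; exact tsum_nonneg (fun q => by positivity)
  obtain ⟨K, hK⟩ : ∃ K : ℝ, K = ((r : ℝ) + 1) * 12 ^ (r + 1) * (2 ^ r) ^ (r + 1) := ⟨_, rfl⟩
  have hK0 : 0 < K := by rw [hK]; positivity
  refine ⟨K * (2 ^ r) ^ t * (Z + 1), by positivity, fun Y G hY hG => ?_⟩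
  let qf : Polynomial ℤ → ℕ := fun g => (range (r + 1)).sup (fun i => (g.coeff i).natAbs)
  obtain ⟨N, hN⟩ : ∃ N : ℕ, N = ⌊(2 : ℝ) ^ r * Y⌋₊ := ⟨_, rfl⟩
  have hY0 : 0 < Y := by linarith
  have hNr : (N : ℝ) ≤ 2 ^ r * Y := by rw [hN]; exact Nat.floor_le (by positivity)
  -- the size
  have hle : ∀ g ∈ G, (qf g : ℝ) ≤ 2 ^ r * mah g := by
    intro g hg
    obtain ⟨h1, h2, h3⟩ := hG g hg
    obtain ⟨i, hi, hi2⟩ := exists_mem_eq_sup (range (r + 1)) ⟨0, by simp⟩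
      (fun i => (g.coeff i).natAbs)
    have h4 := coeff_le_mah g r h2 i
    have h5 : (qf g : ℝ) = |(g.coeff i : ℝ)| := by
      change (((range (r + 1)).sup (fun i => (g.coeff i).natAbs) : ℕ) : ℝ) = _
      rw [hi2, Nat.cast_natAbs, Int.cast_abs]
    rw [h5]
    exact h4
  have hpos : ∀ g ∈ G, 1 ≤ qf g := by
    intro g hg
    obtain ⟨h1, h2, h3⟩ := hG g hg
    have h4 : (g.coeff g.natDegree).natAbs ≤ qf g :=
      le_sup (f := fun i => (g.coeff i).natAbs) (mem_range.2 (by omega))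
    have h5 : g.coeff g.natDegree ≠ 0 := by
      rw [Polynomial.coeff_natDegree]; exact Polynomial.leadingCoeff_ne_zero.2 h1
    have h6 := Int.natAbs_pos.2 h5
    omega
  have hmaps : ∀ g ∈ G, qf g ∈ Icc 1 N := by
    intro g hg
    rw [mem_Icc]
    refine ⟨hpos g hg, ?_⟩
    rw [hN]
    refine Nat.le_floor ((hle g hg).trans ?_)
    exact mul_le_mul_of_nonneg_left (hG g hg).2.2 (by positivity)
  rw [← sum_fiberwise_of_maps_to hmaps]
  have hq : ∀ q ∈ Icc 1 N, ∑ g ∈ G with qf g = q, (mah g ^ (r + 1))⁻¹ ≤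
      K * (2 ^ r) ^ t * (Y ^ t * (q : ℝ) ^ (-1 - t)) := by
    intro q hq
    rw [mem_Icc] at hq
    have hq1 : (1 : ℝ) ≤ q := by exact_mod_cast hq.1
    have hq0 : (0 : ℝ) < q := by linarith
    have hcard : #{g ∈ G | qf g = q} ≤ #(sph (n := r) ∅ q) := by
      refine card_le_card_of_injOn (fun g i => g.coeff (i : ℕ)) ?_ ?_
      · intro g hg
        rw [mem_coe, mem_filter] at hg
        rw [mem_coe]
        obtain ⟨i, hi, hi2⟩ := exists_mem_eq_sup (range (r + 1)) ⟨0, by simp⟩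
          (fun i => (g.coeff i).natAbs)
        have hqf : qf g = (g.coeff i).natAbs := hi2
        refine mem_sph ∅ _ q ⟨i, mem_range.1 hi⟩ ?_ ?_ (by simp)
        · change |g.coeff i| = _
          rw [← hg.2, hqf, Int.abs_eq_natAbs]
        · intro j
          have h1 : (g.coeff (j : ℕ)).natAbs ≤ qf g :=
            le_sup (f := fun i => (g.coeff i).natAbs) (mem_range.2 j.2)
          rw [hg.2] at h1
          have := Int.abs_eq_natAbs (g.coeff (j : ℕ))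
          change |g.coeff (j : ℕ)| ≤ _
          omega
      · intro g hg g' hg' h
        rw [mem_coe, mem_filter] at hg hg'
        ext i
        by_cases hi : i < r + 1
        · exact congrFun h ⟨i, hi⟩
        · rw [Polynomial.coeff_eq_zero_of_natDegree_lt (by
            have := (hG g hg.1).2.1; omega), Polynomial.coeff_eq_zero_of_natDegree_lt (by
            have := (hG g' hg'.1).2.1; omega)]
    have hterm : ∀ g ∈ G.filter (fun g => qf g = q), (mah g ^ (r + 1))⁻¹ ≤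
        (2 ^ r) ^ (r + 1) * ((q : ℝ) ^ (r + 1))⁻¹ := by
      intro g hg
      rw [mem_filter] at hg
      have h1 := hle g hg.1
      rw [hg.2] at h1
      have h2 := one_le_mah g (hG g hg.1).1
      have h3 : (q : ℝ) ^ (r + 1) ≤ (2 ^ r) ^ (r + 1) * mah g ^ (r + 1) := by
        rw [← mul_pow]; exact pow_le_pow_left₀ hq0.le h1 _
      rw [← div_eq_mul_inv, le_div_iff₀ (by positivity), inv_mul_le_iff₀ (by positivity), mul_comm]
      exact h3
    have hs := card_sph (n := r) ∅ q hq.1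
    rw [card_empty, Nat.sub_zero] at hs
    have hc2 : (#{g ∈ G | qf g = q} : ℝ) ≤ (r + 1) * 12 ^ (r + 1) * (q : ℝ) ^ r :=
      le_trans (by exact_mod_cast hcard) hs
    have hqt : (q : ℝ)⁻¹ ≤ (2 ^ r) ^ t * (Y ^ t * (q : ℝ) ^ (-1 - t)) := by
      have h1 : (q : ℝ) ^ t ≤ (2 ^ r) ^ t * Y ^ t := by
        rw [← Real.mul_rpow (by positivity) hY0.le]
        refine Real.rpow_le_rpow hq0.le ?_ ht.le
        refine le_trans ?_ hNr
        exact_mod_cast hq.2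
      calc (q : ℝ)⁻¹ = (q : ℝ) ^ t * (q : ℝ) ^ (-1 - t) := by
            rw [← Real.rpow_add hq0, ← Real.rpow_neg_one]
            congr 1; ring
        _ ≤ ((2 ^ r) ^ t * Y ^ t) * (q : ℝ) ^ (-1 - t) :=
            mul_le_mul_of_nonneg_right h1 (by positivity)
        _ = _ := by ring
    calc ∑ g ∈ G with qf g = q, (mah g ^ (r + 1))⁻¹ ≤
          #{g ∈ G | qf g = q} • ((2 ^ r) ^ (r + 1) * ((q : ℝ) ^ (r + 1))⁻¹) :=
          sum_le_card_nsmul _ _ _ hterm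
      _ = #{g ∈ G | qf g = q} * ((2 ^ r) ^ (r + 1) * ((q : ℝ) ^ (r + 1))⁻¹) := nsmul_eq_mul _ _
      _ ≤ ((r + 1) * 12 ^ (r + 1) * (q : ℝ) ^ r) * ((2 ^ r) ^ (r + 1) * ((q : ℝ) ^ (r + 1))⁻¹) :=
          mul_le_mul_of_nonneg_right hc2 (by positivity)
      _ = K * (q : ℝ)⁻¹ := by
          rw [hK]
          field_simp
          exact (pow_succ _ _).symm
      _ ≤ K * ((2 ^ r) ^ t * (Y ^ t * (q : ℝ) ^ (-1 - t))) :=
          mul_le_mul_of_nonneg_left hqt hK0.le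
      _ = _ := by ring
  refine (sum_le_sum hq).trans ?_
  rw [← mul_sum, ← mul_sum]
  have h8 : ∑ q ∈ Icc 1 N, (q : ℝ) ^ (-1 - t) ≤ Z := by
    rw [hZ]; exact hZs.sum_le_tsum _ (fun q _ => by positivity)
  calc K * (2 ^ r) ^ t * (Y ^ t * ∑ q ∈ Icc 1 N, (q : ℝ) ^ (-1 - t)) ≤
        K * (2 ^ r) ^ t * (Y ^ t * (Z + 1)) := by
        refine mul_le_mul_of_nonneg_left (mul_le_mul_of_nonneg_left (by linarith) (by positivity))
          (by positivity)
    _ = _ := by ring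

/-- the weight of a point. -/
noncomputable def wt (d r T : ℕ) (M : ℝ) : ℝ := M ^ (r + 1) * (max 1 ((T : ℝ) / M)) ^ (d + 1 - r)

theorem all_g (hI : S_Ideals) (hG : S_Gens) (d r : ℕ) (hr : 1 ≤ r) (S : Finset ℕ) (t : ℝ)
    (ht : 0 < t) :
    ∃ C : ℝ, 0 < C ∧ ∀ (T : ℕ) (Y W : ℝ) (F : Finset (Fin (d + 1) → ℤ)), 1 ≤ T → 1 ≤ Y → 0 ≤ W →
      (∀ c ∈ F, (∀ i, |c i| ≤ T) ∧ ∃ g : Polynomial ℤ, Irreducible g ∧ g.natDegree = r ∧
        mah g ≤ Y ∧ res c g ≠ 0 ∧ (rho S (res c g) : ℝ) * wt d r T (mah g) ≤ W) →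
          (#F : ℝ) ≤ C * W * (T * Y) ^ t := by
  classical
  obtain ⟨C1, hC1, h1⟩ := per_g hI hG d r hr S (t / 2) (by positivity)
  obtain ⟨C2, hC2, h2⟩ := sum_poly r (t / 2) (by positivity)
  refine ⟨C1 * C2, by positivity, fun T Y W F hT hY hW hF => ?_⟩
  have hTr : (1 : ℝ) ≤ T := by exact_mod_cast hT
  have hT0 : (0 : ℝ) < T := by linarith
  have hY0 : 0 < Y := by linarith
  have hex : ∀ c : Fin (d + 1) → ℤ, ∃ g : Polynomial ℤ, c ∈ F → Irreducible g ∧ g.natDegree = r ∧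
        mah g ≤ Y ∧ res c g ≠ 0 ∧ (rho S (res c g) : ℝ) * wt d r T (mah g) ≤ W := by
    intro c
    by_cases hc : c ∈ F
    · obtain ⟨-, g, hg⟩ := hF c hc
      exact ⟨g, fun _ => hg⟩
    · exact ⟨0, fun h => absurd h hc⟩
  choose γ hγ using hex
  have hsplit := card_eq_sum_card_image γ F
  have hone : ∀ g ∈ F.image γ, (#{c ∈ F | γ c = g} : ℝ) ≤
      C1 * (T * Y) ^ (t / 2) * W * (mah g ^ (r + 1))⁻¹ := by
    intro g hg
    obtain ⟨c0, hc0, rfl⟩ := mem_image.1 hg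
    obtain ⟨hirr, hdeg, hY', -, -⟩ := hγ c0 hc0
    have hM1 := one_le_mah (γ c0) hirr.ne_zero
    have hM0 : 0 < mah (γ c0) := by linarith
    have hmax : 0 < max 1 ((T : ℝ) / mah (γ c0)) := lt_of_lt_of_le one_pos (le_max_left _ _)
    have hwt : 0 < wt d r T (mah (γ c0)) := by unfold wt; positivity
    have h3 := h1 (γ c0) hirr hdeg T (W / wt d r T (mah (γ c0))) (F.filter (fun c => γ c = γ c0)) hT
      (by positivity) (fun c hc => by
        rw [mem_filter] at hc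
        obtain ⟨-, -, -, h4, h5⟩ := hγ c hc.1
        rw [hc.2] at h4 h5
        exact ⟨(hF c hc.1).1, h4, by rw [le_div_iff₀ hwt]; exact h5⟩)
    refine h3.trans ?_
    have h4 : (T * mah (γ c0)) ^ (t / 2) ≤ (T * Y) ^ (t / 2) :=
      Real.rpow_le_rpow (by positivity) (mul_le_mul_of_nonneg_left hY' hT0.le) (by positivity)
    have h5 : W / wt d r T (mah (γ c0)) * (max 1 ((T : ℝ) / mah (γ c0))) ^ (d + 1 - r) =
        W * (mah (γ c0) ^ (r + 1))⁻¹ := by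
      unfold wt
      field_simp
    calc C1 * (T * mah (γ c0)) ^ (t / 2) * (W / wt d r T (mah (γ c0))) *
          (max 1 ((T : ℝ) / mah (γ c0))) ^ (d + 1 - r)
        = C1 * (T * mah (γ c0)) ^ (t / 2) * (W / wt d r T (mah (γ c0)) *
          (max 1 ((T : ℝ) / mah (γ c0))) ^ (d + 1 - r)) := by ring
      _ = C1 * (T * mah (γ c0)) ^ (t / 2) * (W * (mah (γ c0) ^ (r + 1))⁻¹) := by rw [h5]
      _ ≤ C1 * (T * Y) ^ (t / 2) * (W * (mah (γ c0) ^ (r + 1))⁻¹) :=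
          mul_le_mul_of_nonneg_right (mul_le_mul_of_nonneg_left h4 hC1.le) (by positivity)
      _ = _ := by ring
  have hsum := h2 Y (F.image γ) hY (by
    intro g hg
    obtain ⟨c0, hc0, rfl⟩ := mem_image.1 hg
    obtain ⟨hirr, hdeg, hY', -, -⟩ := hγ c0 hc0
    exact ⟨hirr.ne_zero, hdeg.le, hY'⟩)
  have hcast : (#F : ℝ) = ∑ g ∈ F.image γ, (#{c ∈ F | γ c = g} : ℝ) := by
    rw [hsplit]; push_cast; rfl
  rw [hcast]
  refine (sum_le_sum hone).trans ?_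
  rw [← mul_sum]
  have hYt : Y ^ (t / 2) ≤ (T * Y) ^ (t / 2) :=
    Real.rpow_le_rpow hY0.le (le_mul_of_one_le_left hY0.le hTr) (by positivity)
  have he : (T * Y) ^ t = (T * Y) ^ (t / 2) * (T * Y) ^ (t / 2) := by
    rw [← Real.rpow_add (by positivity)]; congr 1; ring
  calc C1 * (T * Y) ^ (t / 2) * W * ∑ g ∈ F.image γ, (mah g ^ (r + 1))⁻¹ ≤
        C1 * (T * Y) ^ (t / 2) * W * (C2 * Y ^ (t / 2)) :=
        mul_le_mul_of_nonneg_left hsum (by positivity)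
    _ ≤ C1 * (T * Y) ^ (t / 2) * W * (C2 * (T * Y) ^ (t / 2)) :=
        mul_le_mul_of_nonneg_left (mul_le_mul_of_nonneg_left hYt hC2.le) (by positivity)
    _ = _ := by rw [he]; ring

end Pool.Agent.Q256.T6
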