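import Mathlib
import Pool.Agent.Q256.T6.Cnt
import Pool.Agent.Q256.T3.Res
import Pool.Agent.Q95.T6.Ideals
import Pool.Agent.Q95.T6.Gens

set_option autoImplicit false

/-!
Points of arbitrary degree on the projective line: the inequalities for almost all divisors.
-/

namespace Pool.Agent.Q256.T6

open Finset
open Pool.Agent.Q256.T3 (N1 N1_eq box_finite mS card_mS P P_coeff rho_le)
open Pool.Agent.H813R3.Voj (rho rho_pos)

/-- the height of the roots of the irreducible polynomial `g`. -/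
noncomputable def ht (g : Polynomial ℤ) : ℝ := 1 / (g.natDegree : ℝ) * Real.log (mah g)

/-- the forms of height at most `T` for which `N ≥ B r h(x)` fails at some point `x` of degree
`r ≤ R` outside the divisor, where the height of `x` satisfies `Q r (h x)`. -/
def Bad (d : ℕ) (S : Finset ℕ) (R T : ℕ) (Q : ℕ → ℝ → Prop) (B : ℕ → ℝ → ℝ) :
    Set (Fin (d + 1) → ℤ) :=
  {c | (∀ i, |c i| ≤ T) ∧
    ((c (Fin.last d) ≠ 0 ∧ Q 1 0 ∧ N1 S 1 (c (Fin.last d)) < B 1 0) ∨
    ∃ g : Polynomial ℤ, Irreducible g ∧ 1 ≤ g.natDegree ∧ g.natDegree ≤ R ∧ res c g ≠ 0 ∧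
      Q g.natDegree (ht g) ∧ N1 S g.natDegree (res c g) < B g.natDegree (ht g))}

/-- the bound of the main theorem. -/
noncomputable def bd (d T : ℕ) (κ : ℝ) (r : ℕ) (h : ℝ) : ℝ :=
  min (((d : ℝ) - 2 * r) * h + Real.log T) (((d : ℝ) + 1) / r * Real.log T - (r + 1) * h) -
    κ / r * Real.log T

theorem bad_finite (d : ℕ) (S : Finset ℕ) (R T : ℕ) (Q : ℕ → ℝ → Prop) (B : ℕ → ℝ → ℝ) :
    (Bad d S R T Q B).Finite := (box_finite d T).subset (fun _ h => h.1)

theorem weight' (d T r : ℕ) (hT : 1 ≤ T) (hr : 1 ≤ r) (κ M ρ : ℝ) (hM1 : 1 ≤ M) (hρ : 0 < ρ)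
    (h : 1 / (r : ℝ) * Real.log ρ < bd d T κ r (1 / (r : ℝ) * Real.log M)) :
    ρ * wt d r T M ≤ (T : ℝ) ^ ((d : ℝ) + 1 - κ) := by
  have hTr : (1 : ℝ) ≤ T := by exact_mod_cast hT
  have hr1 : (1 : ℝ) ≤ r := by exact_mod_cast hr
  have hr0 : (0 : ℝ) < r := by linarith
  have hM0 : 0 < M := by linarith
  have hmax : 0 < max 1 ((T : ℝ) / M) := lt_of_lt_of_le one_pos (le_max_left _ _)
  have hw0 : 0 < wt d r T M := by unfold wt; positivity
  unfold bd at h
  have ha := lt_of_lt_of_le h (sub_le_sub_right (min_le_left _ _) _)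
  have hb := lt_of_lt_of_le h (sub_le_sub_right (min_le_right _ _) _)
  -- multiply by `r`
  have ha' : Real.log ρ < ((d : ℝ) - 2 * r) * Real.log M + r * Real.log T -
      κ * Real.log T := by
    have h1 := mul_lt_mul_of_pos_left ha hr0
    have h2 : (r : ℝ) * (1 / (r : ℝ) * Real.log ρ) = Real.log ρ := by field_simp
    have h3 : (r : ℝ) * (((d : ℝ) - 2 * r) * (1 / (r : ℝ) * Real.log M) + Real.log T -
        κ / r * Real.log T) = ((d : ℝ) - 2 * r) * Real.log M + r * Real.log T -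
      κ * Real.log T := by field_simp
    rwa [h2, h3] at h1
  have hb' : Real.log ρ < ((d : ℝ) + 1) * Real.log T - (r + 1) * Real.log M -
      κ * Real.log T := by
    have h1 := mul_lt_mul_of_pos_left hb hr0
    have h2 : (r : ℝ) * (1 / (r : ℝ) * Real.log ρ) = Real.log ρ := by field_simp
    have h3 : (r : ℝ) * (((d : ℝ) + 1) / r * Real.log T - (r + 1) * (1 / (r : ℝ) * Real.log M) -
        κ / r * Real.log T) = ((d : ℝ) + 1) * Real.log T - (r + 1) * Real.log M -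
      κ * Real.log T := by field_simp
    rwa [h2, h3] at h1
  have hL : 0 ≤ Real.log M := Real.log_nonneg hM1
  rw [← Real.log_le_log_iff (by positivity) (by positivity), Real.log_mul hρ.ne' hw0.ne',
    Real.log_rpow (by linarith)]
  unfold wt
  rw [Real.log_mul (by positivity) (by positivity), Real.log_pow, Real.log_pow]
  rcases le_total M T with hsT | hsT
  · have hm : max 1 ((T : ℝ) / M) = (T : ℝ) / M :=
      max_eq_right (by rw [le_div_iff₀ hM0]; linarith)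
    rw [hm, Real.log_div (by positivity) (by positivity)]
    rcases Nat.lt_or_ge (d + 1) r with hdr | hdr
    · rw [Nat.sub_eq_zero_of_le (by omega : d + 1 ≤ r)]
      push_cast
      linarith
    · rw [Nat.cast_sub hdr]
      push_cast
      linarith
  · have hm : max 1 ((T : ℝ) / M) = 1 :=
      max_eq_left (by rw [div_le_one hM0]; linarith)
    rw [hm, Real.log_one, mul_zero, add_zero]
    push_cast
    linarith

theorem weight (d : ℕ) (S : Finset ℕ) (T : ℕ) (hT : 1 ≤ T) (κ : ℝ) (c : Fin (d + 1) → ℤ)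
    (g : Polynomial ℤ) (hg : g ≠ 0) (hr : 1 ≤ g.natDegree)
    (h : N1 S g.natDegree (res c g) < bd d T κ g.natDegree (ht g)) :
    (rho S (res c g) : ℝ) * wt d g.natDegree T (mah g) ≤ (T : ℝ) ^ ((d : ℝ) + 1 - κ) := by
  rw [N1_eq] at h
  exact weight' d T g.natDegree hT hr κ (mah g) _ (one_le_mah g hg)
    (by exact_mod_cast rho_pos S _) h

/-- one degree. -/
theorem bad_one (d r : ℕ) (hr : 1 ≤ r) (S : Finset ℕ) (η : ℝ) (hη : 0 < η) (A : ℕ) :
    ∃ C : ℝ, 0 < C ∧ ∀ (T : ℕ) (κ : ℝ) (F : Finset (Fin (d + 1) → ℤ)), 1 ≤ T →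
      (∀ c ∈ F, (∀ i, |c i| ≤ T) ∧ ∃ g : Polynomial ℤ, Irreducible g ∧ g.natDegree = r ∧
        res c g ≠ 0 ∧ ht g ≤ A * Real.log T ∧
          N1 S g.natDegree (res c g) < bd d T κ g.natDegree (ht g)) →
      (#F : ℝ) ≤ C * (T : ℝ) ^ ((d : ℝ) + 1 - κ + η) := by
  obtain ⟨C, hC, h1⟩ := all_g Pool.Agent.Q95.T6.ideals Pool.Agent.Q95.T6.gens d r hr S
    (η / (A * r + 1)) (by positivity)
  refine ⟨C, hC, fun T κ F hT hF => ?_⟩
  have hTr : (1 : ℝ) ≤ T := by exact_mod_cast hT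
  have hT0 : (0 : ℝ) < T := by linarith
  have hr0 : (0 : ℝ) < r := by exact_mod_cast hr
  have h2 := h1 T ((T : ℝ) ^ (A * r)) ((T : ℝ) ^ ((d : ℝ) + 1 - κ)) F hT (one_le_pow₀ hTr)
    (by positivity) (fun c hc => by
      obtain ⟨hb, g, hg, hgr, hres, hh, hN⟩ := hF c hc
      refine ⟨hb, g, hg, hgr, ?_, hres, ?_⟩
      · have hM1 := one_le_mah g hg.ne_zero
        unfold ht at hh
        rw [hgr] at hh
        have h3 : Real.log (mah g) ≤ Real.log ((T : ℝ) ^ (A * r)) := by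
          rw [Real.log_pow]
          push_cast
          have h4 := mul_le_mul_of_nonneg_left hh hr0.le
          have h5 : (r : ℝ) * (1 / (r : ℝ) * Real.log (mah g)) = Real.log (mah g) := by
            field_simp
          rw [h5] at h4
          linarith
        exact (Real.log_le_log_iff (by linarith) (by positivity)).1 h3
      · have h3 := weight d S T hT κ c g hg.ne_zero (by omega) hN
        rwa [hgr] at h3)
  refine h2.trans (le_of_eq ?_)
  have e1 : (T : ℝ) * (T : ℝ) ^ (A * r) = (T : ℝ) ^ (A * r + 1) := by ring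
  rw [e1, ← Real.rpow_natCast (T : ℝ) (A * r + 1), ← Real.rpow_mul hT0.le, mul_assoc,
    ← Real.rpow_add hT0]
  congr 2
  push_cast
  field_simp

/-- the point at infinity. -/
theorem bad_inf (d : ℕ) (S : Finset ℕ) (η : ℝ) (hη : 0 < η) :
    ∃ C : ℝ, 0 < C ∧ ∀ (T : ℕ) (κ : ℝ) (F : Finset (Fin (d + 1) → ℤ)), 1 ≤ T →
      (∀ c ∈ F, (∀ i, |c i| ≤ T) ∧ c (Fin.last d) ≠ 0 ∧
        N1 S 1 (c (Fin.last d)) < bd d T κ 1 0) →
      (#F : ℝ) ≤ C * (T : ℝ) ^ ((d : ℝ) + 1 - κ + η) := by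
  classical
  obtain ⟨C, hC, h1⟩ := card_mS S η hη
  refine ⟨3 ^ d * C, by positivity, fun T κ F hT hF => ?_⟩
  have hTr : (1 : ℝ) ≤ T := by exact_mod_cast hT
  have hT0 : (0 : ℝ) < T := by linarith
  have hsub : #F ≤ #((mS S T ((T : ℝ) ^ (1 - κ)) 1) ×ˢ
      Fintype.piFinset (fun _ : Fin d => Icc (-(T : ℤ)) T)) := by
    refine card_le_card_of_injOn (fun c => (c (Fin.last d), fun i => c i.castSucc)) ?_ ?_
    · intro c hc
      obtain ⟨hb, h0, hN⟩ := hF c hc
      rw [mem_coe, mem_product, Fintype.mem_piFinset]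
      refine ⟨?_, fun i => ?_⟩
      · unfold mS
        rw [mem_filter, mem_Icc, ← abs_le]
        refine ⟨hb _, h0, ?_⟩
        have hρ : (0 : ℝ) < rho S (c (Fin.last d)) := by exact_mod_cast rho_pos S _
        rw [N1_eq] at hN
        unfold bd at hN
        have h2 := lt_of_lt_of_le hN (sub_le_sub_right (min_le_left _ _) _)
        push_cast at h2
        rw [div_one, one_mul, mul_zero, zero_add, div_one] at h2
        have h3 : Real.log (rho S (c (Fin.last d))) ≤ Real.log ((T : ℝ) ^ (1 - κ)) := by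
          rw [Real.log_rpow hT0]; linarith
        rw [Int.cast_one, abs_one, mul_one]
        exact (Real.log_le_log_iff hρ (by positivity)).1 h3
      · rw [mem_Icc, ← abs_le]
        exact hb _
    · intro c _ c' _ h
      have h1 := congrArg Prod.fst h
      have h2 := congrArg Prod.snd h
      funext i
      refine Fin.lastCases ?_ (fun j => ?_) i
      · exact h1
      · exact congrFun h2 j
  rw [card_product, Fintype.card_piFinset, prod_const, card_univ, Fintype.card_fin,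
    Int.card_Icc] at hsub
  have h7 : ((T : ℤ) + 1 - -(T : ℤ)).toNat = 2 * T + 1 := by omega
  rw [h7] at hsub
  have h8 := h1 T ((T : ℝ) ^ (1 - κ)) 1 hT (by positivity) one_ne_zero
  rw [Int.cast_one, abs_one, div_one, mul_one] at h8
  calc (#F : ℝ) ≤ #(mS S T ((T : ℝ) ^ (1 - κ)) 1) * (2 * (T : ℝ) + 1) ^ d := by
        exact_mod_cast hsub
    _ ≤ (C * (T : ℝ) ^ (1 - κ) * (T : ℝ) ^ η) * (3 * (T : ℝ)) ^ d :=
        mul_le_mul h8 (pow_le_pow_left₀ (by positivity) (by linarith) _) (by positivity)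
          (by positivity)
    _ = _ := by
        rw [mul_pow, ← Real.rpow_natCast (T : ℝ) d]
        have e1 : (T : ℝ) ^ ((d : ℝ) + 1 - κ + η) =
            (T : ℝ) ^ (1 - κ) * (T : ℝ) ^ η * (T : ℝ) ^ (d : ℝ) := by
          rw [← Real.rpow_add hT0, ← Real.rpow_add hT0]
          congr 1; ring
        rw [e1]
        ring

/-- **All points of degree at most `R`.** -/
theorem bad_bd (d R : ℕ) (S : Finset ℕ) (η : ℝ) (hη : 0 < η) (A : ℕ) :
    ∃ C : ℝ, 0 < C ∧ ∀ (T : ℕ) (κ : ℝ), 1 ≤ T →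
      ((Bad d S R T (fun _ h => h ≤ A * Real.log T) (bd d T κ)).ncard : ℝ) ≤
        C * (T : ℝ) ^ ((d : ℝ) + 1 - κ + η) := by
  classical
  have hone : ∀ r : ℕ, ∃ C : ℝ, 0 < C ∧ (1 ≤ r → ∀ (T : ℕ) (κ : ℝ)
      (F : Finset (Fin (d + 1) → ℤ)), 1 ≤ T →
      (∀ c ∈ F, (∀ i, |c i| ≤ T) ∧ ∃ g : Polynomial ℤ, Irreducible g ∧ g.natDegree = r ∧
        res c g ≠ 0 ∧ ht g ≤ A * Real.log T ∧
          N1 S g.natDegree (res c g) < bd d T κ g.natDegree (ht g)) →
      (#F : ℝ) ≤ C * (T : ℝ) ^ ((d : ℝ) + 1 - κ + η)) := by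
    intro r
    rcases Nat.eq_zero_or_pos r with h | h
    · exact ⟨1, one_pos, fun h' => by omega⟩
    · obtain ⟨C, hC, h1⟩ := bad_one d r h S η hη A
      exact ⟨C, hC, fun _ => h1⟩
  choose C hC h1 using hone
  obtain ⟨C0, hC0, h0⟩ := bad_inf d S η hη
  refine ⟨C0 + ∑ r ∈ Icc 1 R, C r, add_pos_of_pos_of_nonneg hC0
    (sum_nonneg (fun r _ => (hC r).le)), fun T κ hT => ?_⟩
  have hTr : (1 : ℝ) ≤ T := by exact_mod_cast hT
  have hT0 : (0 : ℝ) < T := by linarith
  have hfin := bad_finite d S R T (fun _ h => h ≤ A * Real.log T) (bd d T κ)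
  let F0 : Finset (Fin (d + 1) → ℤ) := hfin.toFinset.filter (fun c => c (Fin.last d) ≠ 0 ∧
    N1 S 1 (c (Fin.last d)) < bd d T κ 1 0)
  let F : ℕ → Finset (Fin (d + 1) → ℤ) := fun r => hfin.toFinset.filter (fun c =>
    ∃ g : Polynomial ℤ, Irreducible g ∧ g.natDegree = r ∧
        res c g ≠ 0 ∧ ht g ≤ A * Real.log T ∧
          N1 S g.natDegree (res c g) < bd d T κ g.natDegree (ht g))
  have hsub : hfin.toFinset ⊆ F0 ∪ (Icc 1 R).biUnion F := by
    intro c hc
    have hc' := (Set.Finite.mem_toFinset _).1 hc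
    rw [mem_union, mem_filter, mem_biUnion]
    obtain ⟨hbox, ⟨h2, h3, h4⟩ | ⟨g, hg, hg1, hgR, hres, hh, hN⟩⟩ := hc'
    · left; exact ⟨hc, h2, h4⟩
    · right
      refine ⟨g.natDegree, mem_Icc.2 ⟨hg1, hgR⟩, ?_⟩
      exact mem_filter.2 ⟨hc, g, hg, rfl, hres, hh, hN⟩
  have hF0 : (#F0 : ℝ) ≤ C0 * (T : ℝ) ^ ((d : ℝ) + 1 - κ + η) := by
    refine h0 T κ F0 hT (fun c hc => ?_)
    rw [mem_filter] at hc
    exact ⟨((Set.Finite.mem_toFinset _).1 hc.1).1, hc.2⟩
  have hF1 : ∀ r ∈ Icc 1 R, (#(F r) : ℝ) ≤ C r * (T : ℝ) ^ ((d : ℝ) + 1 - κ + η) := by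
    intro r hr
    refine h1 r (mem_Icc.1 hr).1 T κ (F r) hT (fun c hc => ?_)
    obtain ⟨h2, h3⟩ := mem_filter.1 hc
    exact ⟨((Set.Finite.mem_toFinset _).1 h2).1, h3⟩
  have hcard : ((Bad d S R T (fun _ h => h ≤ A * Real.log T) (bd d T κ)).ncard : ℝ) ≤
      #F0 + ∑ r ∈ Icc 1 R, (#(F r) : ℝ) := by
    rw [Set.ncard_eq_toFinset_card _ hfin]
    exact_mod_cast (card_le_card hsub).trans ((card_union_le _ _).trans
      (Nat.add_le_add_left card_biUnion_le _))
  refine hcard.trans ?_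
  rw [add_mul, sum_mul]
  exact add_le_add hF0 (sum_le_sum hF1)

end Pool.Agent.Q256.T6
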