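import Mathlib
import Pool.Agent.Q256.T6.Fin

set_option autoImplicit false

/-!
Points of arbitrary degree on the projective line: Vojta's and Wirsing's inequalities.
-/

namespace Pool.Agent.Q256.T6

open Finset
open Pool.Agent.Q256.T3 (N1 N1_eq box_finite mS card_mS P P_coeff rho_le)
open Pool.Agent.H813R3.Voj (rho rho_pos)

theorem N1_nonneg (S : Finset ℕ) (r : ℕ) (m : ℤ) : 0 ≤ N1 S r m := by
  unfold N1
  exact mul_nonneg (by positivity) (sum_nonneg (fun p _ => Real.log_natCast_nonneg p))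

theorem ht_nonneg (g : Polynomial ℤ) (hg : g ≠ 0) : 0 ≤ ht g := by
  unfold ht
  exact mul_nonneg (by positivity) (Real.log_nonneg (one_le_mah g hg))

/-- **Vojta's inequality.** -/
theorem bad_vojta (d R : ℕ) (hd : 1 ≤ d) (S : Finset ℕ) (η : ℝ) (hη : 0 < η) :
    ∃ C : ℝ, 0 < C ∧ ∀ (T : ℕ) (κ : ℝ), 1 ≤ T → 0 ≤ κ →
      ((Bad d S R T (fun r h => r * (2 * r - 2) * h ≤ (r - κ) * Real.log T ∧
        r * (d + r - 1) * h ≤ (d + 1 - κ) * Real.log T)
        (fun _ h => ((d : ℝ) - 2) * h)).ncard : ℝ) ≤ C * (T : ℝ) ^ ((d : ℝ) + 1 - κ + η) := by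
  obtain ⟨C, hC, h1⟩ := bad_bd d R S η hη (d + 1)
  refine ⟨C, hC, fun T κ hT hκ => le_trans ?_ (h1 T κ hT)⟩
  have hTr : (1 : ℝ) ≤ T := by exact_mod_cast hT
  have hL : 0 ≤ Real.log T := Real.log_nonneg hTr
  have hdr : (1 : ℝ) ≤ d := by exact_mod_cast hd
  have hsub : Bad d S R T (fun r h => r * (2 * r - 2) * h ≤ (r - κ) * Real.log T ∧
        r * (d + r - 1) * h ≤ (d + 1 - κ) * Real.log T) (fun _ h => ((d : ℝ) - 2) * h) ⊆
      Bad d S R T (fun _ h => h ≤ (d + 1 : ℕ) * Real.log T) (bd d T κ) := by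
    rintro c ⟨hbox, ⟨h2, h3, h4⟩ | ⟨g, hg, hg1, hgR, hres, ⟨hh1, hh2⟩, hN⟩⟩
    · have := N1_nonneg S 1 (c (Fin.last d))
      have h5 : N1 S 1 (c (Fin.last d)) < ((d : ℝ) - 2) * 0 := h4
      rw [mul_zero] at h5
      linarith
    · obtain ⟨r, hr⟩ : ∃ r : ℝ, r = g.natDegree := ⟨_, rfl⟩
      obtain ⟨h, hh⟩ : ∃ h : ℝ, h = ht g := ⟨_, rfl⟩
      have hr1 : 1 ≤ r := by rw [hr]; exact_mod_cast hg1
      have hr0 : 0 < r := by linarith
      have hh0 : 0 ≤ h := by rw [hh]; exact ht_nonneg g hg.ne_zero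
      rw [← hr, ← hh] at hh1 hh2
      refine ⟨hbox, Or.inr ⟨g, hg, hg1, hgR, hres, ?_, lt_of_lt_of_le hN ?_⟩⟩
      · rw [← hh]
        push_cast
        have e1 : 1 * h ≤ r * (d + r - 1) * h := by
          refine mul_le_mul_of_nonneg_right ?_ hh0
          exact one_le_mul_of_one_le_of_one_le hr1 (by linarith)
        have e2 : (d + 1 - κ) * Real.log T ≤ (d + 1) * Real.log T :=
          mul_le_mul_of_nonneg_right (by linarith) hL
        linarith
      · unfold bd
        rw [← hr, ← hh, le_sub_iff_add_le]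
        refine le_min ?_ ?_
        · have e1 : (2 * r - 2) * h ≤ (r - κ) / r * Real.log T := by
            rw [div_mul_eq_mul_div, le_div_iff₀ hr0]
            linarith
          have e2 : (r - κ) / r = 1 - κ / r := by field_simp
          rw [e2] at e1
          linarith
        · have e1 : (d + r - 1) * h ≤ (d + 1 - κ) / r * Real.log T := by
            rw [div_mul_eq_mul_div, le_div_iff₀ hr0]
            linarith
          have e2 : (d + 1 - κ) / r = (d + 1) / r - κ / r := by field_simp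
          rw [e2] at e1
          linarith
  exact_mod_cast Set.ncard_le_ncard hsub (bad_finite _ _ _ _ _ _)

/-- **Wirsing's inequality.** -/
theorem bad_wirsing (d : ℕ) (S : Finset ℕ) (η : ℝ) (hη : 0 < η) :
    ∃ C : ℝ, 0 < C ∧ ∀ (T : ℕ) (κ : ℝ), 1 ≤ T → 0 ≤ κ → κ ≤ 1 →
      ((Bad d S d T (fun r h => r * (d - r + 1) * h ≤ (d + 1 - κ) * Real.log T)
        (fun r h => ((d : ℝ) - 2 * r) * h)).ncard : ℝ) ≤
          C * (T : ℝ) ^ ((d : ℝ) + 1 - κ + η) := by
  obtain ⟨C, hC, h1⟩ := bad_bd d d S η hη (d + 1)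
  refine ⟨C, hC, fun T κ hT hκ hκ1 => le_trans ?_ (h1 T κ hT)⟩
  have hTr : (1 : ℝ) ≤ T := by exact_mod_cast hT
  have hL : 0 ≤ Real.log T := Real.log_nonneg hTr
  have hsub : Bad d S d T (fun r h => r * (d - r + 1) * h ≤ (d + 1 - κ) * Real.log T)
        (fun r h => ((d : ℝ) - 2 * r) * h) ⊆
      Bad d S d T (fun _ h => h ≤ (d + 1 : ℕ) * Real.log T) (bd d T κ) := by
    rintro c ⟨hbox, ⟨h2, h3, h4⟩ | ⟨g, hg, hg1, hgR, hres, hh2, hN⟩⟩
    · have := N1_nonneg S 1 (c (Fin.last d))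
      have h5 : N1 S 1 (c (Fin.last d)) < ((d : ℝ) - 2 * (1 : ℕ)) * 0 := h4
      rw [mul_zero] at h5
      linarith
    · obtain ⟨r, hr⟩ : ∃ r : ℝ, r = g.natDegree := ⟨_, rfl⟩
      obtain ⟨h, hh⟩ : ∃ h : ℝ, h = ht g := ⟨_, rfl⟩
      have hr1 : 1 ≤ r := by rw [hr]; exact_mod_cast hg1
      have hrd : r ≤ d := by rw [hr]; exact_mod_cast hgR
      have hr0 : 0 < r := by linarith
      have hh0 : 0 ≤ h := by rw [hh]; exact ht_nonneg g hg.ne_zero
      rw [← hr, ← hh] at hh2
      refine ⟨hbox, Or.inr ⟨g, hg, hg1, hgR, hres, ?_, lt_of_lt_of_le hN ?_⟩⟩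
      · rw [← hh]
        push_cast
        have e1 : 1 * h ≤ r * (d - r + 1) * h := by
          refine mul_le_mul_of_nonneg_right ?_ hh0
          exact one_le_mul_of_one_le_of_one_le hr1 (by linarith)
        have e2 : (d + 1 - κ) * Real.log T ≤ (d + 1) * Real.log T :=
          mul_le_mul_of_nonneg_right (by linarith) hL
        linarith
      · unfold bd
        change ((d : ℝ) - 2 * g.natDegree) * ht g ≤ _
        rw [← hr, ← hh, le_sub_iff_add_le]
        refine le_min ?_ ?_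
        · have e1 : κ / r ≤ 1 := by rw [div_le_one hr0]; linarith
          have e2 : κ / r * Real.log T ≤ 1 * Real.log T := mul_le_mul_of_nonneg_right e1 hL
          linarith
        · have e1 : (d - r + 1) * h ≤ (d + 1 - κ) / r * Real.log T := by
            rw [div_mul_eq_mul_div, le_div_iff₀ hr0]
            linarith
          have e2 : (d + 1 - κ) / r = (d + 1) / r - κ / r := by field_simp
          rw [e2] at e1
          linarith
  exact_mod_cast Set.ncard_le_ncard hsub (bad_finite _ _ _ _ _ _)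

/-- the exponent is optimal. -/
theorem bad_lower (d R : ℕ) (S : Finset ℕ) (A T : ℕ) (κ : ℝ) (hT : 1 ≤ T) (hκ0 : 0 ≤ κ) :
    (T : ℝ) ^ d * ((T : ℝ) ^ (1 - κ) - 1) ≤
      ((Bad d S R T (fun _ h => h ≤ A * Real.log T) (bd d T κ)).ncard : ℝ) := by
  classical
  have hTr : (1 : ℝ) ≤ T := by exact_mod_cast hT
  have hT0 : (0 : ℝ) < T := by linarith
  have hL : 0 ≤ Real.log T := Real.log_nonneg hTr
  obtain ⟨x, hx⟩ : ∃ x : ℝ, x = (T : ℝ) ^ (1 - κ) := ⟨_, rfl⟩
  have hx0 : 0 < x := by rw [hx]; exact Real.rpow_pos_of_pos hT0 _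
  obtain ⟨n, hn⟩ : ∃ n : ℕ, n = ⌈x⌉₊ - 1 := ⟨_, rfl⟩
  have hceil : 1 ≤ ⌈x⌉₊ := Nat.one_le_iff_ne_zero.2 (Nat.ceil_pos.2 hx0).ne'
  have hn1 : x - 1 ≤ n := by
    rw [hn, Nat.cast_sub hceil]
    have := Nat.le_ceil x
    push_cast
    linarith
  have hn2 : (n : ℝ) < x := by
    rw [hn, Nat.cast_sub hceil]
    have := Nat.ceil_lt_add_one hx0.le
    push_cast
    linarith
  have hxT : x ≤ T := by
    have := Real.rpow_le_rpow_of_exponent_le hTr (by linarith : 1 - κ ≤ 1)
    rw [Real.rpow_one] at this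
    rw [hx]
    exact this
  have hnT : n ≤ T := by
    have : (n : ℝ) < T := lt_of_lt_of_le hn2 hxT
    exact_mod_cast this.le
  let F : Finset (Fin (d + 1) → ℤ) :=
    (Icc (1 : ℤ) n ×ˢ Fintype.piFinset (fun _ : Fin d => Icc (-(T : ℤ)) T)).image
      (fun u => (Fin.snoc u.2 u.1 : Fin (d + 1) → ℤ))
  have hFsub : (F : Set (Fin (d + 1) → ℤ)) ⊆
      Bad d S R T (fun _ h => h ≤ A * Real.log T) (bd d T κ) := by
    intro c hc
    rw [mem_coe, mem_image] at hc
    obtain ⟨⟨u, v⟩, huv, rfl⟩ := hc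
    rw [mem_product, Fintype.mem_piFinset, mem_Icc] at huv
    obtain ⟨⟨hu1, hu2⟩, hv⟩ := huv
    simp only at hu1 hu2 hv
    have hval : (Fin.snoc v u : Fin (d + 1) → ℤ) (Fin.last d) = u := Fin.snoc_last _ _
    refine ⟨?_, Or.inl ⟨?_, ?_, ?_⟩⟩
    · intro i
      refine Fin.lastCases ?_ (fun j => ?_) i
      · rw [hval, abs_of_nonneg (by omega)]
        omega
      · change |(Fin.snoc v u : Fin (d + 1) → ℤ) j.castSucc| ≤ _
        rw [Fin.snoc_castSucc, abs_le]
        exact mem_Icc.1 (hv j)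
    · rw [hval]; omega
    · positivity
    · rw [hval, N1_eq]
      unfold bd
      push_cast
      rw [div_one, div_one, div_one, one_mul, mul_zero, mul_zero, zero_add, sub_zero]
      have h1 : Real.log T ≤ ((d : ℝ) + 1) * Real.log T :=
        le_mul_of_one_le_left hL (by have : (0 : ℝ) ≤ d := Nat.cast_nonneg d; linarith)
      rw [min_eq_left h1]
      have hρ : (0 : ℝ) < rho S u := by exact_mod_cast rho_pos S _
      have h2 : (rho S u : ℝ) < x := by
        have h3 := rho_le S u (by omega)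
        have h4 : u.natAbs ≤ n := by omega
        have h5 : ((rho S u : ℕ) : ℝ) ≤ n := by exact_mod_cast h3.trans h4
        exact lt_of_le_of_lt h5 hn2
      have h3 : Real.log (rho S u) < Real.log x := Real.log_lt_log hρ h2
      rw [hx, Real.log_rpow hT0] at h3
      linarith
  have hcard : #F = n * (2 * T + 1) ^ d := by
    rw [card_image_of_injective, card_product, Int.card_Icc, Fintype.card_piFinset, prod_const,
      card_univ, Fintype.card_fin, Int.card_Icc]
    · congr 2 <;> omega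
    · intro u v h
      have h1 := congrFun h (Fin.last d)
      simp only [Fin.snoc_last] at h1
      refine Prod.ext h1 ?_
      funext j
      have h2 := congrFun h j.castSucc
      simpa using h2
  have h1 : ((#F : ℕ) : ℝ) ≤
      ((Bad d S R T (fun _ h => h ≤ A * Real.log T) (bd d T κ)).ncard : ℝ) := by
    have h2 := Set.ncard_le_ncard hFsub (bad_finite _ _ _ _ _ _)
    rw [Set.ncard_coe_finset] at h2
    exact_mod_cast h2
  refine le_trans ?_ h1
  rw [hcard, ← hx]
  push_cast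
  rw [mul_comm]
  refine mul_le_mul hn1 (pow_le_pow_left₀ hT0.le (by linarith) _) (by positivity)
    (Nat.cast_nonneg _)

end Pool.Agent.Q256.T6
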